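import Mathlib

/-!
# Arithmetic of a cubic extension of finite fields of order `q = 2` modulo three
-/

set_option autoImplicit false

namespace Pool.Agent.Lib.MP_53cbe0_co

open Module

universe u v

/-- The arithmetic facts on a cyclic cubic extension used for the construction. -/
structure Cubic (K : Type u) (E : Type v) [Field K] [Field E] [Algebra K E]
    (φ : E →ₐ[K] E) (tr : E →ₗ[K] K) : Prop where
  phi3 : ∀ x, φ (φ (φ x)) = x
  fixed : ∀ x, φ x = x → ∃ k : K, algebraMap K E k = x
  cube : ∀ x : E, x ^ 3 = 1 → x = 1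
  three : (3 : E) ≠ 0
  trace : ∀ x, algebraMap K E (tr x) = x + φ x + φ (φ x)

theorem fixed_of_pow_card {K E : Type*} [Field K] [Field E] [Algebra K E] [Finite K] {x : E}
    (h : x ^ Nat.card K = x) : ∃ k : K, algebraMap K E k = x := by
  classical
  have : Fintype K := Fintype.ofFinite K
  have hq : 1 < Nat.card K := Finite.one_lt_card
  have hne : (Polynomial.X ^ Nat.card K - Polynomial.X : Polynomial E) ≠ 0 :=
    FiniteField.X_pow_card_sub_X_ne_zero E hq
  have hdeg : (Polynomial.X ^ Nat.card K - Polynomial.X : Polynomial E).natDegree = Nat.card K :=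
    FiniteField.X_pow_card_sub_X_natDegree_eq E hq
  have hsub : (Finset.univ.image (algebraMap K E)) ⊆
      (Polynomial.X ^ Nat.card K - Polynomial.X : Polynomial E).roots.toFinset := by
    intro y hy
    rw [Finset.mem_image] at hy
    obtain ⟨k, _, rfl⟩ := hy
    rw [Multiset.mem_toFinset, Polynomial.mem_roots hne]
    simp only [Polynomial.IsRoot.def, Polynomial.eval_sub, Polynomial.eval_pow, Polynomial.eval_X]
    rw [← map_pow, Nat.card_eq_fintype_card, FiniteField.pow_card, sub_self]
  have hcard : (Polynomial.X ^ Nat.card K - Polynomial.X : Polynomial E).roots.toFinset.card ≤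
      (Finset.univ.image (algebraMap K E)).card := by
    rw [Finset.card_image_of_injective _ (algebraMap K E).injective, Finset.card_univ,
      ← Nat.card_eq_fintype_card]
    calc _ ≤ Multiset.card (Polynomial.X ^ Nat.card K - Polynomial.X : Polynomial E).roots :=
          Multiset.toFinset_card_le _
      _ ≤ _ := (Polynomial.card_roots' _).trans hdeg.le
  have heq := Finset.eq_of_subset_of_card_le hsub hcard
  have hx : x ∈ (Polynomial.X ^ Nat.card K - Polynomial.X : Polynomial E).roots.toFinset := by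
    rw [Multiset.mem_toFinset, Polynomial.mem_roots hne]
    simp only [Polynomial.IsRoot.def, Polynomial.eval_sub, Polynomial.eval_pow, Polynomial.eval_X]
    rw [h, sub_self]
  rw [← heq, Finset.mem_image] at hx
  obtain ⟨k, _, hk⟩ := hx
  exact ⟨k, hk⟩

theorem exists_cubic (K : Type u) (E : Type v) [Field K] [Field E] [Algebra K E] [Finite K]
    [Finite E] (h3 : finrank K E = 3) (hq : Nat.card K % 3 = 2) :
    ∃ (φ : E →ₐ[K] E), (∀ x, φ x = x ^ Nat.card K) ∧ Cubic K E φ (Algebra.trace K E) := by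
  classical
  have : Fintype K := Fintype.ofFinite K
  have : Fintype E := Fintype.ofFinite E
  have hcE : Nat.card E = Nat.card K ^ 3 := by
    rw [← h3]
    exact Module.natCard_eq_pow_finrank
  have hφ : ∀ x : E, FiniteField.frobeniusAlgHom K E x = x ^ Nat.card K := by
    intro x
    rw [FiniteField.coe_frobeniusAlgHom, Nat.card_eq_fintype_card]
  refine ⟨FiniteField.frobeniusAlgHom K E, hφ, ?_, ?_, ?_, ?_, ?_⟩
  · intro x
    rw [hφ, hφ, hφ, ← pow_mul, ← pow_mul]
    have : Nat.card K * (Nat.card K * Nat.card K) = Fintype.card E := by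
      rw [← Nat.card_eq_fintype_card, hcE]; ring
    rw [this]
    exact FiniteField.pow_card x
  · intro x hx
    rw [hφ] at hx
    exact fixed_of_pow_card hx
  · intro x hx
    have hx0 : x ≠ 0 := by
      rintro rfl
      simp at hx
    have h1 : x ^ (Nat.card E - 1) = 1 := by
      rw [Nat.card_eq_fintype_card]
      exact FiniteField.pow_card_sub_one_eq_one x hx0
    have h2 : Nat.gcd 3 (Nat.card E - 1) = 1 := by
      have h4 : ¬ 3 ∣ Nat.card E - 1 := by
        rw [hcE]
        intro h5
        have h6 : Nat.card K ^ 3 % 3 = 2 := by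
          rw [Nat.pow_mod, hq]
        have h7 : 0 < Nat.card K ^ 3 := pow_pos Nat.card_pos 3
        omega
      exact (Nat.Prime.coprime_iff_not_dvd Nat.prime_three).2 h4
    have h3 := orderOf_dvd_of_pow_eq_one hx
    have h4 := orderOf_dvd_of_pow_eq_one h1
    have h5 := Nat.dvd_gcd h3 h4
    rw [h2, Nat.dvd_one, orderOf_eq_one_iff] at h5
    exact h5
  · intro h
    obtain ⟨p, hpc, n, hp, hcard⟩ := FiniteField.card' K
    have : CharP E p := charP_of_injective_algebraMap' K p
    have h1 : ((3 : ℕ) : E) = 0 := by exact_mod_cast h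
    rw [CharP.cast_eq_zero_iff E p] at h1
    have h2 : p = 3 := (Nat.prime_dvd_prime_iff_eq hp Nat.prime_three).1 h1
    rw [Nat.card_eq_fintype_card, hcard, h2] at hq
    have h4 : 3 ∣ 3 ^ (n : ℕ) := dvd_pow_self 3 n.ne_zero
    omega
  · intro x
    rw [FiniteField.algebraMap_trace_eq_sum_pow, h3, hφ, hφ]
    simp only [Finset.sum_range_succ, Finset.sum_range_zero]
    rw [← pow_mul]
    ring

namespace Cubic

variable {K : Type u} {E : Type v} [Field K] [Field E] [Algebra K E] {φ : E →ₐ[K] E}
  {tr : E →ₗ[K] K}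

theorem phi_smul (a : K) (x : E) : φ (a • x) = a • φ x := map_smul φ a x

theorem aniso (h : Cubic K E φ tr) {a b : E} (hab : a ^ 2 + a * b + b ^ 2 = 0) :
    a = 0 ∧ b = 0 := by
  by_cases hb : b = 0
  · subst hb
    simp only [mul_zero, add_zero, ne_eq, OfNat.ofNat_ne_zero, not_false_eq_true, zero_pow] at hab
    exact ⟨by simpa using hab, rfl⟩
  · exfalso
    have h1 : (a / b) ^ 3 = 1 := by
      rw [div_pow, div_eq_one_iff_eq (pow_ne_zero 3 hb)]
      linear_combination (a - b) * hab
    have h2 := h.cube _ h1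
    rw [div_eq_one_iff_eq hb] at h2
    subst h2
    have h3 : 3 * a ^ 2 = 0 := by linear_combination hab
    rcases mul_eq_zero.1 h3 with h4 | h4
    · exact h.three h4
    · exact hb (by simpa using h4)

theorem phi_inj (φ : E →ₐ[K] E) : Function.Injective φ := φ.toRingHom.injective

theorem phi_eq_zero {x : E} (hx : φ x = 0) : x = 0 := by
  have : φ x = φ 0 := by rw [hx, map_zero]
  exact φ.toRingHom.injective this

/-- the only eigenvalue of `φ` on `K` is one -/
theorem eigen (h : Cubic K E φ tr) {z : E} (hz : z ≠ 0) {c : K} (hc : φ z = c • z) :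
    c = 1 := by
  have h1 := h.phi3 z
  rw [hc, phi_smul, hc, phi_smul, phi_smul, hc, smul_smul, smul_smul] at h1
  have h2 : (algebraMap K E c) ^ 3 = 1 := by
    have h3 : (c * c * c) • z = (1 : E) * z := by rw [h1, one_mul]
    rw [Algebra.smul_def] at h3
    have h4 := mul_right_cancel₀ hz h3
    rw [← h4]
    simp only [map_mul]
    ring
  have h5 := h.cube _ h2
  exact (algebraMap K E).injective (h5.trans (map_one _).symm)

theorem tr_algebraMap (h : Cubic K E φ tr) (k : K) : tr (algebraMap K E k) = 3 * k := by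
  apply (algebraMap K E).injective
  rw [h.trace]
  simp only [AlgHom.commutes, map_mul]
  rw [map_ofNat]
  ring

theorem tr_phi (h : Cubic K E φ tr) (x : E) : tr (φ x) = tr x := by
  apply (algebraMap K E).injective
  rw [h.trace, h.trace, h.phi3]
  ring

theorem three' (h : Cubic K E φ tr) : (3 : K) ≠ 0 := by
  intro h3
  apply h.three
  have : algebraMap K E 3 = 0 := by rw [h3, map_zero]
  rwa [map_ofNat] at this

/-- a fixed element of trace zero vanishes -/
theorem eq_zero_of_fixed (h : Cubic K E φ tr) {w : E} (hw : φ w = w) (ht : tr w = 0) : w = 0 := by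
  obtain ⟨k, rfl⟩ := h.fixed w hw
  rw [h.tr_algebraMap] at ht
  rcases mul_eq_zero.1 ht with h1 | h1
  · exact absurd h1 h.three'
  · rw [h1, map_zero]

/-- linear independence of the two generators -/
theorem li (h : Cubic K E φ tr) {w : E} (hw : w ≠ 0) {a b : K} (h1 : a • w + b • φ w = 0)
    (h2 : b * tr w = 0) : a = 0 ∧ b = 0 := by
  by_cases hb : b = 0
  · subst hb
    rw [zero_smul, add_zero] at h1
    exact ⟨(smul_eq_zero.1 h1).resolve_right hw, rfl⟩
  · exfalso
    have ht : tr w = 0 := (mul_eq_zero.1 h2).resolve_left hb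
    have h3 : φ w = (-(b⁻¹ * a)) • w := by
      have : b • φ w = (-a) • w := by
        rw [neg_smul]
        exact eq_neg_of_add_eq_zero_right h1
      calc φ w = b⁻¹ • (b • φ w) := by rw [smul_smul, inv_mul_cancel₀ hb, one_smul]
        _ = (-(b⁻¹ * a)) • w := by rw [this, smul_smul]; congr 1; ring
    have h4 := h.eigen hw h3
    rw [h4, one_smul] at h3
    exact hw (h.eq_zero_of_fixed h3 ht)

/-- existence of a line through a vector -/
theorem exists_gen (h : Cubic K E φ tr) {x : E} {t : K} (hxt : ¬ (x = 0 ∧ t = 0)) :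
    ∃ w : E, w ≠ 0 ∧ ∃ a b : K, x = a • w + b • φ w ∧ t = b * tr w := by
  by_cases ht : t = 0
  · subst ht
    exact ⟨x, fun h0 => hxt ⟨h0, rfl⟩, 1, 0, by simp, by simp⟩
  · by_cases hx : tr x = 0
    · -- the eigenvalue is minus one
      have h3 := h.three'
      set w : E := (3 : K)⁻¹ • (algebraMap K E t - (x + x + φ x)) with hw
      have hφ2 : φ (φ x) = -x - φ x := by
        have := h.trace x
        rw [hx, map_zero] at this
        linear_combination -this
      have hφw : φ w = w + x := by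
        have e1 : φ w = (3 : K)⁻¹ • (algebraMap K E t - (φ x + φ x + φ (φ x))) := by
          rw [hw, phi_smul, map_sub, map_add, map_add, AlgHom.commutes]
        have e2 : (3 : K)⁻¹ • ((3 : K) • x) = x := by
          rw [smul_smul, inv_mul_cancel₀ h3, one_smul]
        have e3 : (3 : K) • x = 3 * x := by
          rw [Algebra.smul_def, map_ofNat]
        have e4 : w + x = (3 : K)⁻¹ • ((algebraMap K E t - (x + x + φ x)) + (3 : K) • x) := by
          rw [smul_add, e2]
        rw [e1, hφ2, e4]
        congr 1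
        rw [e3]
        ring
      have htw : tr w = t := by
        rw [hw, map_smul, map_sub, map_add, map_add, h.tr_algebraMap, h.tr_phi, hx, smul_eq_mul]
        rw [add_zero, add_zero, sub_zero, ← mul_assoc, inv_mul_cancel₀ h3, one_mul]
      refine ⟨w, ?_, -1, 1, ?_, ?_⟩
      · intro h0
        rw [h0, map_zero] at htw
        exact ht htw.symm
      · rw [hφw, neg_smul, one_smul, one_smul]
        ring
      · rw [htw, one_mul]
    · -- generic eigenvalue
      set a : K := tr x / t - 1 with ha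
      have ha1 : 1 + a ≠ 0 := by
        rw [ha]
        intro h0
        have : tr x / t = 0 := by linear_combination h0
        rw [div_eq_zero_iff] at this
        exact this.elim hx ht
      have ha3 : 1 + a ^ 3 ≠ 0 := by
        intro h0
        apply ha1
        have h1 : (algebraMap K E (-a)) ^ 3 = 1 := by
          rw [← map_pow, ← map_one (algebraMap K E)]
          congr 1
          linear_combination -h0
        have h2 := h.cube _ h1
        have h3 : -a = 1 := (algebraMap K E).injective (h2.trans (map_one _).symm)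
        linear_combination -h3
      set c : K := (1 + a ^ 3)⁻¹ with hc
      set w : E := c • (φ (φ x) - a • φ x + a ^ 2 • x) with hw
      have hφw : φ w = c • (x - a • φ (φ x) + a ^ 2 • φ x) := by
        rw [hw, phi_smul, map_add, map_sub, phi_smul, phi_smul, h.phi3]
      have hxw : x = a • w + (1 : K) • φ w := by
        rw [hφw, hw, one_smul, smul_comm a c, ← smul_add]
        have e1 : a • (φ (φ x) - a • φ x + a ^ 2 • x) + (x - a • φ (φ x) + a ^ 2 • φ x) =
            (1 + a ^ 3) • x := by
          simp only [smul_add, smul_sub, smul_smul, add_smul, one_smul]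
          rw [show a * a = a ^ 2 by ring, show a * a ^ 2 = a ^ 3 by ring]
          abel
        rw [e1, smul_smul, hc, inv_mul_cancel₀ ha3, one_smul]
      have htw : tr w = t := by
        have e1 : tr x = (a + 1) * tr w := by
          have e0 : tr x = tr (a • w + (1 : K) • φ w) := congrArg tr hxw
          rw [e0, map_add, LinearMap.map_smul tr a w, LinearMap.map_smul tr 1 (φ w), h.tr_phi,
            smul_eq_mul, smul_eq_mul]
          ring
        have e2 : tr x = (a + 1) * t := by
          rw [ha]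
          field_simp
          ring
        have e3 : (a + 1) * (tr w - t) = 0 := by linear_combination e2 - e1
        rcases mul_eq_zero.1 e3 with h5 | h5
        · exact absurd (by linear_combination h5) ha1
        · linear_combination h5
      refine ⟨w, ?_, a, 1, hxw, by rw [htw, one_mul]⟩
      intro h0
      rw [h0, map_zero] at htw
      exact ht htw.symm

/-- the algebraic core of the disjointness -/
theorem core {u1 u2 u3 k k' Y1 Y2 Y3 : E} (hu : u1 * u2 * u3 = 1)
    (h1 : u1 * (u3 - 1) * Y2 = k' - u1 * k) (h2 : u2 * (u1 - 1) * Y3 = k' - u2 * k)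
    (h3 : u3 * (u2 - 1) * Y1 = k' - u3 * k)
    (hQ : (k - Y2) * Y1 + (k - Y3) * Y2 + (k - Y1) * Y3 = 0) :
    (u1 - 1) * (u2 - 1) * (u3 - 1) * (k ^ 2 + k * k' + k' ^ 2) = 0 := by
  have e1 : u1 * (u3 - 1) * (k - Y2) = u1 * u3 * k - k' := by linear_combination -h1
  have e2 : u2 * (u1 - 1) * (k - Y3) = u2 * u1 * k - k' := by linear_combination -h2
  have e3 : u3 * (u2 - 1) * (k - Y1) = u3 * u2 * k - k' := by linear_combination -h3
  have f1 : (u1 * (u3 - 1) * (k - Y2)) * (u3 * (u2 - 1) * Y1) * (u2 * (u1 - 1)) +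
      (u2 * (u1 - 1) * (k - Y3)) * (u1 * (u3 - 1) * Y2) * (u3 * (u2 - 1)) +
      (u3 * (u2 - 1) * (k - Y1)) * (u2 * (u1 - 1) * Y3) * (u1 * (u3 - 1)) = 0 := by
    linear_combination (u1 * (u3 - 1)) * (u3 * (u2 - 1)) * (u2 * (u1 - 1)) * hQ
  rw [e1, e2, e3, h1, h2, h3] at f1
  have g1 : (u1 * u3 * k - k') * (k' - u3 * k) * (u2 * (u1 - 1)) =
      (u1 - 1) * (k - u2 * k') * (k' - u3 * k) := by
    linear_combination (k' - u3 * k) * (u1 - 1) * k * hu
  have g2 : (u2 * u1 * k - k') * (k' - u1 * k) * (u3 * (u2 - 1)) =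
      (u2 - 1) * (k - u3 * k') * (k' - u1 * k) := by
    linear_combination (k' - u1 * k) * (u2 - 1) * k * hu
  have g3 : (u3 * u2 * k - k') * (k' - u2 * k) * (u1 * (u3 - 1)) =
      (u3 - 1) * (k - u1 * k') * (k' - u2 * k) := by
    linear_combination (k' - u2 * k) * (u3 - 1) * k * hu
  rw [g1, g2, g3] at f1
  linear_combination f1 + (k ^ 2 + k' ^ 2 - 2 * k * k') * hu
  
/-- the disjointness of two different translates -/
theorem disj (h : Cubic K E φ tr) {u w w' : E} (hu : u * φ u * φ (φ u) = 1) (hu1 : u ≠ 1)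
    (hw : w ≠ 0) {a1 b1 a2 b2 : K}
    (e1 : u * w = a1 • w' + b1 • φ w') (e2 : 0 = b1 * tr w')
    (e3 : u * φ w = a2 • w' + b2 • φ w') (e4 : tr w = b2 * tr w') : False := by
  -- coefficients in `E`
  obtain ⟨A1, hA1⟩ : ∃ A, A = algebraMap K E a1 := ⟨_, rfl⟩
  obtain ⟨B1, hB1⟩ : ∃ A, A = algebraMap K E b1 := ⟨_, rfl⟩
  obtain ⟨A2, hA2⟩ : ∃ A, A = algebraMap K E a2 := ⟨_, rfl⟩
  obtain ⟨B2, hB2⟩ : ∃ A, A = algebraMap K E b2 := ⟨_, rfl⟩
  have fA1 : φ A1 = A1 := by rw [hA1]; exact AlgHom.commutes φ a1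
  have fB1 : φ B1 = B1 := by rw [hB1]; exact AlgHom.commutes φ b1
  have fA2 : φ A2 = A2 := by rw [hA2]; exact AlgHom.commutes φ a2
  have fB2 : φ B2 = B2 := by rw [hB2]; exact AlgHom.commutes φ b2
  rw [Algebra.smul_def, Algebra.smul_def, ← hA1, ← hB1] at e1
  rw [Algebra.smul_def, Algebra.smul_def, ← hA2, ← hB2] at e3
  have e2' : B1 * (w' + φ w' + φ (φ w')) = 0 := by
    rw [← h.trace w', hB1, ← map_mul, ← e2, map_zero]
  have e4' : w + φ w + φ (φ w) = B2 * (w' + φ w' + φ (φ w')) := by
    rw [← h.trace w, ← h.trace w', hB2, ← map_mul, ← e4]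
  -- the conjugates of the equations
  have e12 : φ u * φ w = A1 * φ w' + B1 * φ (φ w') := by
    rw [← map_mul, e1, map_add, map_mul, map_mul, fA1, fB1]
  have e13 : φ (φ u) * φ (φ w) = A1 * φ (φ w') + B1 * w' := by
    rw [← map_mul, e12, map_add, map_mul, map_mul, fA1, fB1, h.phi3]
  have e32 : φ u * φ (φ w) = A2 * φ w' + B2 * φ (φ w') := by
    rw [← map_mul, e3, map_add, map_mul, map_mul, fA2, fB2]
  have e33 : φ (φ u) * w = A2 * φ (φ w') + B2 * w' := by
    have := congrArg φ e32
    rw [map_mul, map_add, map_mul, map_mul, fA2, fB2, h.phi3, h.phi3] at this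
    exact this
  -- the two invariants
  obtain ⟨k, hk⟩ : ∃ k, k = w * φ w + φ w * φ (φ w) + φ (φ w) * w := ⟨_, rfl⟩
  obtain ⟨k', hk'⟩ : ∃ k', k' = u * (w + φ w + φ (φ w)) * w +
      u * φ (φ u) * (φ w * φ (φ w) - w ^ 2) := ⟨_, rfl⟩
  have hk'2 : k' = (A1 * B2 - A2 * B1) * (w' * φ w' + φ w' * φ (φ w') + φ (φ w') * w') := by
    rw [hk']
    have h1 : u * (w + φ w + φ (φ w)) * w =
        (A1 * w' + B1 * φ w') * (B2 * (w' + φ w' + φ (φ w'))) := by
      rw [← e4', ← e1]; ring
    have h2 : u * φ (φ u) * (φ w * φ (φ w) - w ^ 2) =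
        (u * φ w) * (φ (φ u) * φ (φ w)) - (u * w) * (φ (φ u) * w) := by ring
    rw [h1, h2, e1, e3, e13, e33]
    linear_combination (A2 * w' + B2 * φ w') * e2'
  have fk : φ k = k := by
    rw [hk]
    simp only [map_add, map_mul, h.phi3]
    ring
  have fk' : φ k' = k' := by
    rw [hk'2]
    simp only [map_sub, map_add, map_mul, h.phi3, fA1, fA2, fB1, fB2]
    ring
  have g1 : u * (φ (φ u) - 1) * (φ w * φ (φ w) - w ^ 2) = k' - u * k := by
    rw [hk', hk]; ring
  have g2 : φ u * (u - 1) * (φ (φ w) * w - φ w ^ 2) = k' - φ u * k := by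
    have := congrArg φ g1
    simp only [map_sub, map_mul, map_pow, map_one, h.phi3, fk, fk'] at this
    exact this
  have g3 : φ (φ u) * (φ u - 1) * (w * φ w - φ (φ w) ^ 2) = k' - φ (φ u) * k := by
    have := congrArg φ g2
    simp only [map_sub, map_mul, map_pow, map_one, h.phi3, fk, fk'] at this
    exact this
  have hQ : (k - (φ w * φ (φ w) - w ^ 2)) * (w * φ w - φ (φ w) ^ 2) +
      (k - (φ (φ w) * w - φ w ^ 2)) * (φ w * φ (φ w) - w ^ 2) +
      (k - (w * φ w - φ (φ w) ^ 2)) * (φ (φ w) * w - φ w ^ 2) = 0 := by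
    rw [hk]; ring
  have hc := core hu g1 g2 g3 hQ
  have hu2 : φ u ≠ 1 := fun h0 => hu1 (phi_inj φ (h0.trans (map_one φ).symm))
  have hu3 : φ (φ u) ≠ 1 := fun h0 => hu2 (phi_inj φ (h0.trans (map_one φ).symm))
  have hz : k ^ 2 + k * k' + k' ^ 2 = 0 := by
    rcases mul_eq_zero.1 hc with h0 | h0
    · exfalso
      rcases mul_eq_zero.1 h0 with h0 | h0
      · rcases mul_eq_zero.1 h0 with h0 | h0
        · exact hu1 (sub_eq_zero.1 h0)
        · exact hu2 (sub_eq_zero.1 h0)
      · exact hu3 (sub_eq_zero.1 h0)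
    · exact h0
  obtain ⟨hk0, hk'0⟩ := h.aniso hz
  have hu0 : u ≠ 0 := by
    rintro rfl
    simp at hu
  have hY : φ w * φ (φ w) - w ^ 2 = 0 := by
    rw [hk0, hk'0, mul_zero, sub_zero] at g1
    rcases mul_eq_zero.1 g1 with h0 | h0
    · exfalso
      rcases mul_eq_zero.1 h0 with h0 | h0
      · exact hu0 h0
      · exact hu3 (sub_eq_zero.1 h0)
    · exact h0
  have hY2 : φ (φ w) * w - φ w ^ 2 = 0 := by
    have := congrArg φ hY
    simpa only [map_sub, map_mul, map_pow, h.phi3, map_zero] using this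
  -- all conjugates are equal
  have hcub : (φ w / w) ^ 3 = 1 := by
    rw [div_pow, div_eq_one_iff_eq (pow_ne_zero 3 hw)]
    linear_combination w * hY - φ w * hY2
  have h1 := h.cube _ hcub
  rw [div_eq_one_iff_eq hw] at h1
  have hT : (w + φ w + φ (φ w)) * w = 0 := by
    have : (w + φ w + φ (φ w)) * w = k - (φ w * φ (φ w) - w ^ 2) := by rw [hk]; ring
    rw [this, hk0, hY, sub_zero]
  have hT' : w + φ w + φ (φ w) = 0 := (mul_eq_zero.1 hT).resolve_right hw
  have htr : tr w = 0 := by
    apply (algebraMap K E).injective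
    rw [h.trace, hT', map_zero]
  exact hw (h.eq_zero_of_fixed h1 htr)

end Cubic

end Pool.Agent.Lib.MP_53cbe0_co
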