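import Mathlib

/-!
# Spreads, packings and collineations of a projective space
-/

set_option autoImplicit false

namespace Pool.Agent.Lib.MP_53cbe0_co

open scoped LinearAlgebra.Projectivization

universe u v

variable (K : Type u) (V : Type v) [Field K] [AddCommGroup V] [Module K V]

/-- A line of the projective space of `V`, as a set of points: the points contained in a
two-dimensional subspace of `V`. -/
def IsLine (l : Set (ℙ K V)) : Prop :=
  ∃ W : Submodule K V, Module.finrank K W = 2 ∧ l = {P : ℙ K V | P.submodule ≤ W}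

/-- A collineation: a permutation of the points that maps lines onto lines. -/
def IsCollineation (σ : Equiv.Perm (ℙ K V)) : Prop :=
  ∀ l : Set (ℙ K V), IsLine K V l → IsLine K V (σ '' l)

/-- A spread: a set of `q ^ 2 + 1` lines such that every point lies on exactly one of them. -/
def IsSpread (S : Set (Set (ℙ K V))) : Prop :=
  S.ncard = Nat.card K ^ 2 + 1 ∧ (∀ l ∈ S, IsLine K V l) ∧ ∀ P : ℙ K V, ∃! l, l ∈ S ∧ P ∈ l

/-- A packing: a set of `q ^ 2 + q + 1` pairwise disjoint spreads, so that every line lies in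
exactly one of them. -/
def IsPacking (Pk : Set (Set (Set (ℙ K V)))) : Prop :=
  Pk.ncard = Nat.card K ^ 2 + Nat.card K + 1 ∧ (∀ S ∈ Pk, IsSpread K V S) ∧
    (∀ S ∈ Pk, ∀ T ∈ Pk, S ≠ T → Disjoint S T) ∧ ∀ l, IsLine K V l → ∃! S, S ∈ Pk ∧ l ∈ S

/-- The action of a permutation of the points on sets of sets of points. -/
def actSpread {X : Type*} (σ : Equiv.Perm X) (S : Set (Set X)) : Set (Set X) :=
  (fun l => σ '' l) '' S

/-- A packing is cyclic when some collineation of order exactly `q ^ 2 + q + 1` maps every spread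
of the packing to a spread of the packing and permutes these spreads in a single cycle. -/
def IsCyclicPacking (Pk : Set (Set (Set (ℙ K V)))) : Prop :=
  IsPacking K V Pk ∧ ∃ σ : Equiv.Perm (ℙ K V), IsCollineation K V σ ∧
    orderOf σ = Nat.card K ^ 2 + Nat.card K + 1 ∧ (∀ S ∈ Pk, actSpread σ S ∈ Pk) ∧
    ∀ S ∈ Pk, ∀ T ∈ Pk, ∃ k : ℕ, (actSpread σ)^[k] S = T

end Pool.Agent.Lib.MP_53cbe0_co
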