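import Mathlib

/-!
# Planar difference sets of order divisible by three
-/

set_option autoImplicit false

namespace Pool.Agent.Lib.MP_53cbe0_co

open Finset

/-- `D` is a planar difference set of order `q` in `ZMod n`. -/
structure IsPlanar {n : ℕ} (q : ℕ) (D : Finset (ZMod n)) : Prop where
  card : D.card = q + 1
  exu : ∀ g : ZMod n, g ≠ 0 → ∃! x : ZMod n × ZMod n, (x.1 ∈ D ∧ x.2 ∈ D) ∧ x.1 - x.2 = g

section

variable {n q : ℕ} [NeZero n] {D : Finset (ZMod n)}

/-- number of pairs with `q d - d' = g` -/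
noncomputable def cnt (q : ℕ) (D : Finset (ZMod n)) (g : ZMod n) : ℕ :=
  ((D ×ˢ D).filter fun x => (q : ZMod n) * x.1 - x.2 = g).card

omit [NeZero n] in
theorem IsPlanar.diff_card (h : IsPlanar q D) {g : ZMod n} (hg : g ≠ 0) :
    ((D ×ˢ D).filter fun x => x.1 - x.2 = g).card = 1 := by
  obtain ⟨x, hx, hu⟩ := h.exu g hg
  rw [Finset.card_eq_one]
  refine ⟨x, ?_⟩
  ext y
  simp only [mem_filter, mem_product, mem_singleton]
  constructor
  · rintro ⟨⟨h1, h2⟩, h3⟩
    exact hu y ⟨⟨h1, h2⟩, h3⟩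
  · rintro rfl
    exact ⟨⟨hx.1.1, hx.1.2⟩, hx.2⟩

omit [NeZero n] in
theorem IsPlanar.diff_card_zero (h : IsPlanar q D) :
    ((D ×ˢ D).filter fun x => x.1 - x.2 = 0).card = q + 1 := by
  rw [← h.card]
  refine Finset.card_bij (fun x _ => x.1) ?_ ?_ ?_
  · intro x hx
    simp only [mem_filter, mem_product] at hx
    exact hx.1.1
  · intro x hx y hy hxy
    simp only [mem_filter, mem_product] at hx hy
    have h1 := sub_eq_zero.1 hx.2
    have h2 := sub_eq_zero.1 hy.2
    ext
    · rw [hxy]
    · rw [← h1, ← h2, hxy]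
  · intro b hb
    exact ⟨(b, b), by simp [hb], rfl⟩

theorem sum_cnt (h : IsPlanar q D) : ∑ g : ZMod n, cnt q D g = (q + 1) * (q + 1) := by
  have h1 := Finset.card_eq_sum_card_fiberwise (s := D ×ˢ D) (t := (Finset.univ : Finset (ZMod n)))
    (f := fun x => (q : ZMod n) * x.1 - x.2) (fun x _ => Finset.mem_coe.2 (mem_univ _))
  rw [card_product, h.card] at h1
  exact h1.symm

/-- the sum of the squares of the counting function -/
theorem sum_sq_cnt (h : IsPlanar q D) (hq : ∀ g : ZMod n, (q : ZMod n) * g = 0 → g = 0) :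
    ∑ g : ZMod n, cnt q D g ^ 2 = (q + 1) * (q + 1) + (q + 1) * q := by
  classical
  -- pairs of pairs
  have h1 : ∀ g : ZMod n, cnt q D g ^ 2 =
      (((D ×ˢ D) ×ˢ (D ×ˢ D)).filter fun x => (q : ZMod n) * x.1.1 - x.1.2 = g ∧
        (q : ZMod n) * x.2.1 - x.2.2 = g).card := by
    intro g
    rw [sq, cnt, ← card_product]
    congr 1
    ext x
    simp only [mem_product, mem_filter]
    tauto
  have h2 : ∑ g : ZMod n, cnt q D g ^ 2 =
      (((D ×ˢ D) ×ˢ (D ×ˢ D)).filter fun x => (q : ZMod n) * x.1.1 - x.1.2 =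
        (q : ZMod n) * x.2.1 - x.2.2).card := by
    rw [Finset.card_eq_sum_card_fiberwise
      (s := ((D ×ˢ D) ×ˢ (D ×ˢ D)).filter fun x => (q : ZMod n) * x.1.1 - x.1.2 =
        (q : ZMod n) * x.2.1 - x.2.2) (t := (Finset.univ : Finset (ZMod n)))
      (f := fun x => (q : ZMod n) * x.1.1 - x.1.2) (fun x _ => Finset.mem_coe.2 (mem_univ _))]
    refine Finset.sum_congr rfl fun g _ => ?_
    rw [h1 g]
    congr 1
    ext x
    simp only [mem_filter]
    constructor
    · rintro ⟨a, b, c⟩
      exact ⟨⟨a, b.trans c.symm⟩, b⟩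
    · rintro ⟨⟨a, b⟩, c⟩
      exact ⟨a, c, b ▸ c⟩
  rw [h2]
  -- fibre over the pair of first coordinates
  have h3 : (((D ×ˢ D) ×ˢ (D ×ˢ D)).filter fun x => (q : ZMod n) * x.1.1 - x.1.2 =
        (q : ZMod n) * x.2.1 - x.2.2).card =
      ∑ y ∈ D ×ˢ D, ((D ×ˢ D).filter fun z => z.1 - z.2 = (q : ZMod n) * (y.1 - y.2)).card := by
    rw [Finset.card_eq_sum_card_fiberwise
      (s := ((D ×ˢ D) ×ˢ (D ×ˢ D)).filter fun x => (q : ZMod n) * x.1.1 - x.1.2 =
        (q : ZMod n) * x.2.1 - x.2.2) (t := D ×ˢ D)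
      (f := fun x => (x.1.1, x.2.1)) ?_]
    · refine Finset.sum_congr rfl fun y hy => ?_
      refine Finset.card_bij (fun x _ => (x.1.2, x.2.2)) ?_ ?_ ?_
      · intro x hx
        simp only [mem_filter, mem_product] at hx ⊢
        obtain ⟨⟨⟨⟨a, b⟩, c, d⟩, e⟩, f⟩ := hx
        refine ⟨⟨b, d⟩, ?_⟩
        rw [← f]
        simp only
        linear_combination -e
      · intro x hx x' hx' hxx
        simp only [mem_filter, mem_product] at hx hx'
        obtain ⟨_, f⟩ := hx
        obtain ⟨_, f'⟩ := hx'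
        rw [← f'] at f
        simp only [Prod.mk.injEq] at f hxx
        ext
        · exact f.1
        · exact hxx.1
        · exact f.2
        · exact hxx.2
      · intro z hz
        simp only [mem_filter, mem_product] at hz hy ⊢
        refine ⟨((y.1, z.1), (y.2, z.2)), ⟨⟨⟨⟨hy.1, hz.1.1⟩, hy.2, hz.1.2⟩, ?_⟩, rfl⟩, rfl⟩
        simp only
        linear_combination -hz.2
    · intro x hx
      simp only [coe_filter, mem_product, Set.mem_ofPred_eq, coe_product, Set.mem_prod, mem_coe] at hx ⊢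
      exact ⟨hx.1.1.1, hx.1.2.1⟩
  rw [h3, ← Finset.sum_filter_add_sum_filter_not (D ×ˢ D) (fun y => y.1 - y.2 = 0)]
  have h4 : ∑ y ∈ (D ×ˢ D).filter (fun y => y.1 - y.2 = 0),
      ((D ×ˢ D).filter fun z => z.1 - z.2 = (q : ZMod n) * (y.1 - y.2)).card =
      (q + 1) * (q + 1) := by
    rw [Finset.sum_congr rfl (g := fun _ => q + 1)]
    · rw [Finset.sum_const, h.diff_card_zero, smul_eq_mul]
    · intro y hy
      simp only [mem_filter] at hy
      rw [hy.2, mul_zero, h.diff_card_zero]
  have h5 : ∑ y ∈ (D ×ˢ D).filter (fun y => ¬ y.1 - y.2 = 0),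
      ((D ×ˢ D).filter fun z => z.1 - z.2 = (q : ZMod n) * (y.1 - y.2)).card =
      (q + 1) * q := by
    rw [Finset.sum_congr rfl (g := fun _ => 1)]
    · rw [Finset.sum_const, smul_eq_mul, mul_one]
      have h6 := Finset.card_filter_add_card_filter_not (s := D ×ˢ D) (fun y => y.1 - y.2 = 0)
      rw [h.diff_card_zero, card_product, h.card] at h6
      nlinarith
    · intro y hy
      simp only [mem_filter] at hy
      exact h.diff_card fun h7 => hy.2 (hq _ h7)
  rw [h4, h5]

/-- monomials of the group algebra -/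
noncomputable def mon (p n : ℕ) (d : ZMod n) : AddMonoidAlgebra (ZMod p) (ZMod n) :=
  AddMonoidAlgebra.single d 1

omit [NeZero n] in
theorem mon_mul (p : ℕ) (a b : ZMod n) : mon p n a * mon p n b = mon p n (a + b) := by
  simp [mon, AddMonoidAlgebra.single_mul_single]

theorem mon_mul_all (p : ℕ) (a : ZMod n) :
    mon p n a * (∑ g : ZMod n, mon p n g) = ∑ g : ZMod n, mon p n g := by
  rw [Finset.mul_sum]
  exact Fintype.sum_equiv (Equiv.addLeft a) _ _ fun b => by rw [mon_mul]; rfl

/-- the counting function is positive -/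
theorem cnt_pos {p e : ℕ} (hp : p.Prime) (hpe : q = p ^ e) (he : e ≠ 0) (h : IsPlanar q D)
    (g : ZMod n) : 1 ≤ cnt q D g := by
  classical
  have : Fact p.Prime := ⟨hp⟩
  have : CharP (AddMonoidAlgebra (ZMod p) (ZMod n)) p := charP_of_injective_algebraMap
    (FaithfulSMul.algebraMap_injective (ZMod p) (AddMonoidAlgebra (ZMod p) (ZMod n))) p
  have : ExpChar (AddMonoidAlgebra (ZMod p) (ZMod n)) p := ExpChar.prime hp
  have hq0 : ((q : ℕ) : AddMonoidAlgebra (ZMod p) (ZMod n)) = 0 := by
    rw [hpe, Nat.cast_pow, CharP.cast_eq_zero, zero_pow he]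
  have hDJ : (∑ d ∈ D, mon p n d) * (∑ g : ZMod n, mon p n g) = ∑ g : ZMod n, mon p n g := by
    rw [Finset.sum_mul, Finset.sum_congr rfl fun a _ => mon_mul_all p a, Finset.sum_const,
      h.card, nsmul_eq_mul]
    push_cast
    rw [hq0, zero_add, one_mul]
  have hDD : (∑ d ∈ D, mon p n d) * (∑ d ∈ D, mon p n (-d)) = ∑ g : ZMod n, mon p n g := by
    have h1 : (∑ d ∈ D, mon p n d) * (∑ d ∈ D, mon p n (-d)) =
        ∑ x ∈ D ×ˢ D, mon p n (x.1 - x.2) := by
      rw [Finset.sum_mul_sum, Finset.sum_product]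
      simp only [mon_mul, sub_eq_add_neg]
    rw [h1, ← Finset.sum_fiberwise (s := D ×ˢ D) (g := fun x => x.1 - x.2)]
    refine Finset.sum_congr rfl fun g _ => ?_
    rw [Finset.sum_congr rfl (g := fun _ => mon p n g)]
    · rw [Finset.sum_const]
      by_cases hg : g = 0
      · subst hg
        rw [h.diff_card_zero, nsmul_eq_mul]
        push_cast
        rw [hq0, zero_add, one_mul]
      · rw [h.diff_card hg, one_smul]
    · intro x hx
      simp only [mem_filter] at hx
      rw [hx.2]
  have hfrob : (∑ d ∈ D, mon p n d) ^ q = ∑ d ∈ D, mon p n ((q : ZMod n) * d) := by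
    have h1 : (∑ d ∈ D, mon p n d) ^ q = ∑ d ∈ D, mon p n d ^ q := by
      rw [hpe]
      exact sum_pow_char_pow p e D (mon p n)
    rw [h1]
    refine Finset.sum_congr rfl fun d _ => ?_
    unfold mon
    rw [AddMonoidAlgebra.single_pow, one_pow, nsmul_eq_mul]
  have hprod : (∑ d ∈ D, mon p n d) ^ q * (∑ d ∈ D, mon p n (-d)) =
      ∑ g : ZMod n, mon p n g := by
    have hq1 : q = (q - 1) + 1 := by
      have : 0 < q := by rw [hpe]; exact pow_pos hp.pos e
      omega
    rw [hq1, pow_succ, mul_assoc, hDD]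
    have : ∀ k : ℕ, (∑ d ∈ D, mon p n d) ^ k * (∑ g : ZMod n, mon p n g) =
        ∑ g : ZMod n, mon p n g := by
      intro k
      induction k with
      | zero => simp
      | succ k ih => rw [pow_succ, mul_assoc, hDJ, ih]
    exact this _
  have hmon : ∀ x : ZMod n, (mon p n x).coeff g = if x = g then (1 : ZMod p) else 0 := by
    intro x
    unfold mon
    rw [AddMonoidAlgebra.coeff_single]
    exact Finsupp.single_apply
  have hcoef : ((∑ d ∈ D, mon p n d) ^ q * (∑ d ∈ D, mon p n (-d))).coeff g =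
      (cnt q D g : ZMod p) := by
    rw [hfrob]
    have h1 : (∑ d ∈ D, mon p n ((q : ZMod n) * d)) * (∑ d ∈ D, mon p n (-d)) =
        ∑ x ∈ D ×ˢ D, mon p n ((q : ZMod n) * x.1 - x.2) := by
      rw [Finset.sum_mul_sum, Finset.sum_product]
      simp only [mon_mul, sub_eq_add_neg]
    rw [h1, AddMonoidAlgebra.coeff_sum, Finsupp.finsetSum_apply,
      Finset.sum_congr rfl fun x _ => hmon _, ← Finset.sum_filter, Finset.sum_const, nsmul_eq_mul,
      mul_one]
    rfl
  have hJ : (∑ g : ZMod n, mon p n g).coeff g = 1 := by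
    rw [AddMonoidAlgebra.coeff_sum, Finsupp.finsetSum_apply,
      Finset.sum_congr rfl fun x _ => hmon _]
    simp
  rw [hprod, hJ] at hcoef
  by_contra hlt
  have : cnt q D g = 0 := by omega
  rw [this] at hcoef
  simp at hcoef

/-- There is a translate of `D` which is the image of `D` under multiplication by `q`. -/
theorem exists_shift {p e : ℕ} (hp : p.Prime) (hpe : q = p ^ e) (he : e ≠ 0)
    (hn : n = q ^ 2 + q + 1) (h : IsPlanar q D) :
    ∃ g₀ : ZMod n, ∀ d ∈ D, (q : ZMod n) * d - g₀ ∈ D := by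
  classical
  have hq0 : 0 < q := by rw [hpe]; exact pow_pos hp.pos e
  have hq : ∀ g : ZMod n, (q : ZMod n) * g = 0 → g = 0 := by
    intro g hg
    have h1 : ((q : ZMod n) ^ 2 + q + 1) = 0 := by
      have h0 : ((q ^ 2 + q + 1 : ℕ) : ZMod n) = 0 := by rw [← hn]; exact ZMod.natCast_self n
      push_cast at h0
      exact h0
    have h2 : g = ((q : ZMod n) ^ 2 + q + 1) * g - ((q : ZMod n) + 1) * (q * g) := by ring
    rw [h2, h1, hg]
    ring
  have h1 := sum_cnt h
  have h2 := sum_sq_cnt h hq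
  have h3 := cnt_pos hp hpe he h
  have hc : (Finset.univ : Finset (ZMod n)).card = q ^ 2 + q + 1 := by
    rw [Finset.card_univ, ZMod.card, hn]
  -- the excess
  have h4 : ∑ g : ZMod n, (cnt q D g - 1) = q := by
    have : ∑ g : ZMod n, (cnt q D g - 1) + ∑ g : ZMod n, 1 = (q + 1) * (q + 1) := by
      rw [← Finset.sum_add_distrib, ← h1]
      exact Finset.sum_congr rfl fun g _ => Nat.sub_add_cancel (h3 g)
    rw [Finset.sum_const, hc, smul_eq_mul, mul_one] at this
    nlinarith
  have h5 : ∑ g : ZMod n, (cnt q D g - 1) ^ 2 = q ^ 2 := by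
    have : ∑ g : ZMod n, (cnt q D g - 1) ^ 2 + 2 * ∑ g : ZMod n, (cnt q D g - 1) +
        ∑ g : ZMod n, 1 = (q + 1) * (q + 1) + (q + 1) * q := by
      rw [← h2, Finset.mul_sum, ← Finset.sum_add_distrib, ← Finset.sum_add_distrib]
      refine Finset.sum_congr rfl fun g _ => ?_
      have h6 := h3 g
      obtain ⟨k, hk⟩ := Nat.exists_eq_add_of_le h6
      rw [hk, Nat.add_sub_cancel_left]
      ring
    rw [h4, Finset.sum_const, hc, smul_eq_mul, mul_one] at this
    nlinarith
  -- some excess equals `q`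
  have h6 : ∃ g₀ : ZMod n, cnt q D g₀ = q + 1 := by
    by_contra hcon
    push Not at hcon
    have h7 : ∀ g : ZMod n, cnt q D g - 1 ≤ q := by
      intro g
      refine le_trans ?_ h4.le
      exact Finset.single_le_sum (f := fun g => cnt q D g - 1) (fun _ _ => Nat.zero_le _)
        (mem_univ g)
    have h8 : ∀ g : ZMod n, cnt q D g - 1 < q := by
      intro g
      refine lt_of_le_of_ne (h7 g) fun h9 => hcon g ?_
      have := h3 g
      omega
    have h9 : ∑ g : ZMod n, (cnt q D g - 1) ^ 2 < q * ∑ g : ZMod n, (cnt q D g - 1) := by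
      rw [Finset.mul_sum]
      have hex : ∃ g : ZMod n, 0 < cnt q D g - 1 := by
        by_contra hz
        push Not at hz
        have : ∑ g : ZMod n, (cnt q D g - 1) = 0 :=
          Finset.sum_eq_zero fun g _ => Nat.le_zero.1 (hz g)
        omega
      obtain ⟨g, hg⟩ := hex
      refine Finset.sum_lt_sum (fun g _ => ?_) ⟨g, mem_univ _, ?_⟩
      · rw [sq]
        exact Nat.mul_le_mul_right _ (h8 g).le
      · rw [sq]
        exact Nat.mul_lt_mul_of_pos_right (h8 g) hg
    rw [h5, h4, sq] at h9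
    exact lt_irrefl _ h9
  obtain ⟨g₀, hg₀⟩ := h6
  refine ⟨g₀, fun d hd => ?_⟩
  -- projection to the first coordinate
  have h7 : (((D ×ˢ D).filter fun x => (q : ZMod n) * x.1 - x.2 = g₀).image fun x => x.1) = D := by
    refine Finset.eq_of_subset_of_card_le ?_ ?_
    · intro x hx
      simp only [mem_image, mem_filter, mem_product] at hx
      obtain ⟨y, hy, rfl⟩ := hx
      exact hy.1.1
    · rw [Finset.card_image_of_injOn, h.card]
      · exact hg₀.ge
      · intro x hx y hy hxy
        simp only [coe_filter, mem_product, Set.mem_ofPred_eq] at hx hy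
        have e1 := hx.2
        have e2 := hy.2
        simp only at hxy
        rw [hxy] at e1
        ext
        · exact hxy
        · linear_combination e2 - e1
  rw [← h7] at hd
  simp only [mem_image, mem_filter, mem_product] at hd
  obtain ⟨y, hy, rfl⟩ := hd
  have : (q : ZMod n) * y.1 - g₀ = y.2 := by rw [← hy.2]; ring
  rw [this]
  exact hy.1.2

/-- For a planar difference set of order divisible by `3`, minus `q` times the sum of the
elements is an element. -/
theorem mem_of_three_dvd {p e : ℕ} (hp : p.Prime) (hpe : q = p ^ e) (he : e ≠ 0)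
    (hn : n = q ^ 2 + q + 1) (h : IsPlanar q D) (h3 : 3 ∣ q) :
    -(q : ZMod n) * ∑ d ∈ D, d ∈ D := by
  classical
  obtain ⟨g₀, hg₀⟩ := exists_shift hp hpe he hn h
  have hq1 : ((q : ZMod n) ^ 2 + q + 1) = 0 := by
    have h0 : ((q ^ 2 + q + 1 : ℕ) : ZMod n) = 0 := by rw [← hn]; exact ZMod.natCast_self n
    push_cast at h0
    exact h0
  have hq3 : (q : ZMod n) ^ 3 = 1 := by linear_combination ((q : ZMod n) - 1) * hq1
  have hqi : ∀ g : ZMod n, (q : ZMod n) * g = 0 → g = 0 := by
    intro g hg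
    linear_combination g * hq1 - ((q : ZMod n) + 1) * hg
  -- the map
  let f : ZMod n → ZMod n := fun x => (q : ZMod n) * x - g₀
  have hfinj : Function.Injective f := by
    intro x y hxy
    have h1 : (q : ZMod n) * (x - y) = 0 := by
      simp only [f] at hxy
      linear_combination hxy
    exact sub_eq_zero.1 (hqi _ h1)
  have himg : D.image f = D := by
    refine Finset.eq_of_subset_of_card_le ?_ ?_
    · intro x hx
      simp only [mem_image] at hx
      obtain ⟨y, hy, rfl⟩ := hx
      exact hg₀ y hy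
    · rw [Finset.card_image_of_injective _ hfinj]
  -- the sum
  have hsum : (q : ZMod n) * ∑ d ∈ D, d - (q + 1) * g₀ = ∑ d ∈ D, d := by
    conv_rhs => rw [← himg, Finset.sum_image fun x _ y _ hxy => hfinj hxy]
    simp only [f]
    rw [Finset.sum_sub_distrib, Finset.sum_const, h.card, ← Finset.mul_sum, nsmul_eq_mul]
    push_cast
    ring
  set s := ∑ d ∈ D, d with hs
  -- the fixed point
  have hfix : f (-(q : ZMod n) * s) = -(q : ZMod n) * s := by
    simp only [f]
    have : ((q : ZMod n) + 1) * (g₀ - (q - 1) * (-(q : ZMod n) * s)) = 0 := by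
      linear_combination -hsum + ((q : ZMod n) - 1) * s * hq1
    have h2 : g₀ - (q - 1) * (-(q : ZMod n) * s) = 0 := by
      linear_combination (g₀ - (q - 1) * (-(q : ZMod n) * s)) * hq1 - (q : ZMod n) * this
    linear_combination -h2
  -- fixed points are unique
  have huniq : ∀ x : ZMod n, f x = x → x = -(q : ZMod n) * s := by
    intro x hx
    obtain ⟨k, hk⟩ := h3
    -- inverse of q - 1
    have h1 : ((q : ZMod n) - 1) * (x - -(q : ZMod n) * s) = 0 := by
      simp only [f] at hx hfix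
      linear_combination hx - hfix
    -- (q - 1) (q + 2) = q^2 + q - 2 = -3, and 3 is invertible as 3 k = q
    have h2 : (3 : ZMod n) * (x - -(q : ZMod n) * s) = 0 := by
      linear_combination (x - -(q : ZMod n) * s) * hq1 - ((q : ZMod n) + 2) * h1
    have h3' : (q : ZMod n) * (x - -(q : ZMod n) * s) = 0 := by
      have : (q : ZMod n) = 3 * (k : ZMod n) := by rw [hk]; push_cast; ring
      rw [this]
      rw [this] at h2
      linear_combination (k : ZMod n) * h2
    exact sub_eq_zero.1 (hqi _ h3')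
  -- permutation of `D` of order three
  let σ : Equiv.Perm D := Equiv.ofBijective
    (fun x : D => (⟨f x, hg₀ x x.2⟩ : D))
    (Finite.injective_iff_bijective.1 fun x y hxy => Subtype.ext (hfinj (congrArg Subtype.val hxy)))
  have hσ : σ ^ 3 ^ 1 = 1 := by
    ext x
    have : ((σ ^ 3) x : ZMod n) = f (f (f x)) := rfl
    simp only [pow_one, Equiv.Perm.coe_one, id_eq]
    rw [this]
    have h1 : f (f (f (x : ZMod n))) - -(q : ZMod n) * s =
        (q : ZMod n) ^ 3 * ((x : ZMod n) - -(q : ZMod n) * s) := by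
      simp only [f] at hfix ⊢
      linear_combination ((q : ZMod n) ^ 2 + q + 1) * hfix
    rw [hq3, one_mul] at h1
    exact sub_left_inj.1 h1
  have : Fact (Nat.Prime 3) := ⟨Nat.prime_three⟩
  have hcard : ¬ 3 ∣ Fintype.card D := by
    rw [Fintype.card_coe, h.card]
    omega
  obtain ⟨a, ha⟩ := Equiv.Perm.exists_fixed_point_of_prime hcard hσ
  have h1 : f (a : ZMod n) = a := congrArg Subtype.val ha
  rw [← huniq _ h1]
  exact a.2

end

end Pool.Agent.Lib.MP_53cbe0_co
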