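import Pool.Agent.Lib.MP_53cbe0_co.Inc
import Pool.Agent.Lib.MP_53cbe0_co.Cubic

/-!
# Cyclic packings exist for `q = 2` modulo three
-/

set_option autoImplicit false
set_option linter.unusedSectionVars false

namespace Pool.Agent.Lib.MP_53cbe0_co

open scoped LinearAlgebra.Projectivization
open Module

universe u v w

variable {K : Type u} {V : Type v} [Field K] [AddCommGroup V] [Module K V]
variable [Finite K] [FiniteDimensional K V]

section Counting

/-- A partition into lines has `q ^ 2 + 1` members. -/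
theorem ncard_of_partition (h4 : finrank K V = 4) {S : Set (Set (ℙ K V))}
    (hl : ∀ l ∈ S, IsLine K V l) (hu : ∀ P : ℙ K V, ∃! l, l ∈ S ∧ P ∈ l) :
    S.ncard = Nat.card K ^ 2 + 1 := by
  classical
  have : Fintype (ℙ K V) := Fintype.ofFinite _
  have hfin : S.Finite := Set.toFinite S
  let f : ℙ K V → Set (ℙ K V) := fun P => (hu P).choose
  have hf : ∀ P, f P ∈ S ∧ P ∈ f P := fun P => (hu P).choose_spec.1
  have h1 := Finset.card_eq_sum_card_fiberwise (s := (Finset.univ : Finset (ℙ K V)))
    (t := hfin.toFinset) (f := f) (fun P _ => by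
      simp only [Set.Finite.coe_toFinset]
      exact (hf P).1)
  have h2 : ∀ l ∈ hfin.toFinset, (Finset.univ.filter fun P => f P = l).card = Nat.card K + 1 := by
    intro l hlS
    rw [Set.Finite.mem_toFinset] at hlS
    rw [← (hl l hlS).ncard, ← Set.ncard_coe_finset]
    congr 1
    ext P
    simp only [Finset.coe_filter, Finset.mem_univ, true_and, Set.mem_ofPred_eq]
    constructor
    · rintro rfl
      exact (hf P).2
    · intro hP
      exact (hu P).unique (hf P) ⟨hlS, hP⟩
  rw [Finset.sum_congr rfl h2, Finset.sum_const, smul_eq_mul, Finset.card_univ,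
    ← Nat.card_eq_fintype_card, card_points h4, ← Set.ncard_eq_toFinset_card S hfin] at h1
  have h3 : (Nat.card K ^ 2 + 1) * (Nat.card K + 1) = S.ncard * (Nat.card K + 1) := by
    rw [← h1]; ring
  exact (Nat.eq_of_mul_eq_mul_right (Nat.succ_pos _) h3).symm

/-- the number of lines through a point -/
theorem ncard_lines_through (h4 : finrank K V = 4) (P : ℙ K V) :
    {l : Set (ℙ K V) | IsLine K V l ∧ P ∈ l}.ncard = Nat.card K ^ 2 + Nat.card K + 1 := by
  classical
  have : Fintype (ℙ K V) := Fintype.ofFinite _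
  have hfin : {l : Set (ℙ K V) | IsLine K V l ∧ P ∈ l}.Finite := Set.toFinite _
  have h1 := Finset.card_eq_sum_card_fiberwise (s := (Finset.univ : Finset (ℙ K V)).erase P)
    (t := hfin.toFinset) (f := fun Q => lineOf P Q) (fun Q hQ => by
      simp only [Finset.coe_erase, Finset.coe_univ, Set.mem_sdiff, Set.mem_univ,
        Set.mem_singleton_iff, true_and] at hQ
      simp only [Set.Finite.coe_toFinset, Set.mem_ofPred_eq]
      exact ⟨isLine_lineOf (Ne.symm hQ), left_mem_lineOf P Q⟩)
  have h2 : ∀ l ∈ hfin.toFinset,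
      (((Finset.univ : Finset (ℙ K V)).erase P).filter fun Q => lineOf P Q = l).card =
        Nat.card K := by
    intro l hlS
    rw [Set.Finite.mem_toFinset] at hlS
    obtain ⟨hl, hPl⟩ := hlS
    have h3 : Nat.card K = (l \ {P}).ncard := by
      rw [Set.ncard_sdiff_singleton_of_mem hPl, hl.ncard]; rfl
    rw [h3, ← Set.ncard_coe_finset]
    congr 1
    ext Q
    simp only [Finset.coe_filter, Finset.mem_erase, Finset.mem_univ, and_true, Set.mem_ofPred_eq,
      Set.mem_sdiff, Set.mem_singleton_iff]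
    constructor
    · rintro ⟨h5, rfl⟩
      exact ⟨right_mem_lineOf P Q, h5⟩
    · rintro ⟨h5, h6⟩
      exact ⟨h6, (eq_lineOf hl hPl h5 (Ne.symm h6)).symm⟩
  rw [Finset.sum_congr rfl h2, Finset.sum_const, smul_eq_mul, Finset.card_erase_of_mem
    (Finset.mem_univ P), Finset.card_univ, ← Nat.card_eq_fintype_card, card_points h4,
    ← Set.ncard_eq_toFinset_card _ hfin] at h1
  have hq := card_ge_two (K := K)
  have h3 : {l : Set (ℙ K V) | IsLine K V l ∧ P ∈ l}.ncard * Nat.card K =
      (Nat.card K ^ 2 + Nat.card K + 1) * Nat.card K := by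
    rw [← h1, Nat.add_sub_cancel]; ring
  exact Nat.eq_of_mul_eq_mul_right (by omega) h3

/-- `q ^ 2 + q + 1` pairwise disjoint spreads form a packing. -/
theorem isPacking_of_disjoint (h4 : finrank K V = 4) {Pk : Set (Set (Set (ℙ K V)))}
    (h1 : Pk.ncard = Nat.card K ^ 2 + Nat.card K + 1) (h2 : ∀ S ∈ Pk, IsSpread K V S)
    (h3 : ∀ S ∈ Pk, ∀ T ∈ Pk, S ≠ T → Disjoint S T) : IsPacking K V Pk := by
  classical
  refine ⟨h1, h2, h3, ?_⟩
  intro l hl
  obtain ⟨P, hP⟩ : l.Nonempty := Set.nonempty_of_ncard_ne_zero (by rw [hl.ncard]; omega)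
  -- the map from spreads to lines through `P`
  have hfinL : {l : Set (ℙ K V) | IsLine K V l ∧ P ∈ l}.Finite := Set.toFinite _
  have hfinP : Pk.Finite := Set.finite_of_ncard_ne_zero (by rw [h1]; omega)
  let f : Pk → {l : Set (ℙ K V) | IsLine K V l ∧ P ∈ l} := fun S =>
    ⟨((h2 S S.2).2.2 P).choose, (h2 S S.2).2.1 _ ((h2 S S.2).2.2 P).choose_spec.1.1,
      ((h2 S S.2).2.2 P).choose_spec.1.2⟩
  have hf : ∀ S : Pk, (f S : Set (ℙ K V)) ∈ (S : Set (Set (ℙ K V))) := fun S =>
    ((h2 S S.2).2.2 P).choose_spec.1.1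
  have hinj : Function.Injective f := by
    intro S T hST
    by_contra hne
    have hd := h3 S S.2 T T.2 fun h => hne (Subtype.ext h)
    refine Set.disjoint_left.1 hd (hf S) ?_
    rw [hST]
    exact hf T
  have : Finite Pk := hfinP
  have : Finite {l : Set (ℙ K V) | IsLine K V l ∧ P ∈ l} := hfinL
  have hbij : Function.Bijective f := by
    refine hinj.bijective_of_nat_card_le ?_
    rw [Nat.card_coe_set_eq, Nat.card_coe_set_eq, h1, ncard_lines_through h4 P]
  obtain ⟨S, hS⟩ := hbij.2 ⟨l, hl, hP⟩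
  refine ⟨S, ⟨S.2, ?_⟩, ?_⟩
  · have := hf S
    rw [hS] at this
    exact this
  · rintro T ⟨hT, hlT⟩
    by_contra hne
    have hd := h3 T hT S S.2 hne
    refine Set.disjoint_left.1 hd hlT ?_
    have := hf S
    rw [hS] at this
    exact this

theorem IsSpread.act (h4 : finrank K V = 4) {σ : Equiv.Perm (ℙ K V)} (hσ : IsCollineation K V σ)
    {S : Set (Set (ℙ K V))} (hS : IsSpread K V S) : IsSpread K V (actSpread σ S) := by
  have h1 : ∀ l ∈ actSpread σ S, IsLine K V l := by
    rintro _ ⟨l, hl, rfl⟩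
    exact hσ _ (hS.2.1 l hl)
  have h2 : ∀ P : ℙ K V, ∃! l, l ∈ actSpread σ S ∧ P ∈ l := by
    intro P
    obtain ⟨l, ⟨hl, hP⟩, hu⟩ := hS.2.2 (σ.symm P)
    refine ⟨σ '' l, ⟨⟨l, hl, rfl⟩, ⟨_, hP, σ.apply_symm_apply P⟩⟩, ?_⟩
    rintro _ ⟨⟨m, hm, rfl⟩, ⟨Q, hQ, hQP⟩⟩
    have h3 : m = l := hu m ⟨hm, by rw [← hQP, Equiv.symm_apply_apply]; exact hQ⟩
    show σ '' m = σ '' l
    rw [h3]
  exact ⟨ncard_of_partition h4 h1 h2, h1, h2⟩

end Counting

section Construction

variable {E : Type w} [Field E] [Algebra K E] {φ : E →ₐ[K] E} {tr : E →ₗ[K] K}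

/-- The lines of the spread. -/
def Lw (e : V ≃ₗ[K] E × K) (φ : E →ₐ[K] E) (tr : E →ₗ[K] K) (w : E) : Submodule K V :=
  Submodule.span K {e.symm (w, 0), e.symm (φ w, tr w)}

theorem mem_Lw {e : V ≃ₗ[K] E × K} {w : E} {v : V} :
    v ∈ Lw e φ tr w ↔ ∃ a b : K, (e v).1 = a • w + b • φ w ∧ (e v).2 = b * tr w := by
  unfold Lw
  rw [Submodule.mem_span_pair]
  constructor
  · rintro ⟨a, b, h⟩
    refine ⟨a, b, ?_⟩
    rw [← h, map_add, map_smul, map_smul, LinearEquiv.apply_symm_apply,
      LinearEquiv.apply_symm_apply]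
    simp
  · rintro ⟨a, b, h1, h2⟩
    refine ⟨a, b, ?_⟩
    apply e.injective
    rw [map_add, map_smul, map_smul, LinearEquiv.apply_symm_apply, LinearEquiv.apply_symm_apply]
    ext
    · simp [h1]
    · simp [h2]

theorem finrank_Lw (h : Cubic K E φ tr) (e : V ≃ₗ[K] E × K) {w : E} (hw : w ≠ 0) :
    finrank K (Lw e φ tr w) = 2 := by
  have hli : LinearIndependent K ![e.symm (w, 0), e.symm (φ w, tr w)] := by
    rw [LinearIndependent.pair_iff]
    intro a b hab
    have h1 : e (a • e.symm (w, 0) + b • e.symm (φ w, tr w)) = e 0 := by rw [hab]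
    rw [map_add, map_smul, map_smul, LinearEquiv.apply_symm_apply,
      LinearEquiv.apply_symm_apply, map_zero] at h1
    have h2 := congrArg Prod.fst h1
    have h3 := congrArg Prod.snd h1
    simp only [Prod.smul_mk, Prod.mk_add_mk, Prod.fst_zero, Prod.snd_zero, mul_zero,
      zero_add, smul_eq_mul] at h2 h3
    exact h.li hw h2 h3
  have h1 := finrank_span_eq_card hli
  rw [Fintype.card_fin, Matrix.range_cons, Matrix.range_cons, Matrix.range_empty,
    Set.union_empty, Set.singleton_union] at h1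
  exact h1

/-- The spread. -/
def spreadS (e : V ≃ₗ[K] E × K) (φ : E →ₐ[K] E) (tr : E →ₗ[K] K) : Set (Set (ℙ K V)) :=
  {l | ∃ w : E, w ≠ 0 ∧ l = pts (Lw e φ tr w)}

theorem Lw_smul (e : V ≃ₗ[K] E × K) {c : K} (hc : c ≠ 0) (w : E) :
    Lw e φ tr (c • w) = Lw e φ tr w := by
  ext v
  rw [mem_Lw, mem_Lw]
  constructor
  · rintro ⟨a, b, h1, h2⟩
    refine ⟨a * c, b * c, ?_, ?_⟩
    · rw [h1, Cubic.phi_smul, smul_smul, smul_smul]
    · rw [h2, map_smul, smul_eq_mul]; ring
  · rintro ⟨a, b, h1, h2⟩
    refine ⟨a * c⁻¹, b * c⁻¹, ?_, ?_⟩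
    · rw [h1, Cubic.phi_smul, smul_smul, smul_smul, mul_assoc, mul_assoc, inv_mul_cancel₀ hc,
        mul_one, mul_one]
    · rw [h2, map_smul, smul_eq_mul]
      field_simp

/-- two lines through a common vector are equal -/
theorem Lw_eq (h : Cubic K E φ tr) (h3 : finrank K E = 3) (e : V ≃ₗ[K] E × K) {w w' : E}
    (hw : w ≠ 0) (hw' : w' ≠ 0) {v : V} (hv : v ≠ 0) (h1 : v ∈ Lw e φ tr w)
    (h2 : v ∈ Lw e φ tr w') : Lw e φ tr w = Lw e φ tr w' := by
  obtain ⟨a, b, hx, ht⟩ := mem_Lw.1 h1
  obtain ⟨a', b', hx', ht'⟩ := mem_Lw.1 h2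
  have hev : e v ≠ 0 := fun h0 => hv (by simpa using h0)
  by_cases ht0 : (e v).2 = 0
  · rw [ht0] at ht ht'
    have hx0 : (e v).1 ≠ 0 := by
      intro h0
      exact hev (Prod.ext h0 ht0)
    by_cases htr : tr (e v).1 = 0
    · -- both generators have trace zero
      have key : ∀ (w : E), w ≠ 0 → ∀ a b : K, (e v).1 = a • w + b • φ w → 0 = b * tr w →
          tr w = 0 := by
        intro w hw a b hx ht
        rcases mul_eq_zero.1 ht.symm with hb | hb
        · rw [hb, zero_smul, add_zero] at hx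
          rw [hx, map_smul, smul_eq_mul] at htr
          rcases mul_eq_zero.1 htr with h0 | h0
          · rw [h0, zero_smul] at hx
            exact absurd hx hx0
          · exact h0
        · exact hb
      have hw0 := key w hw a b hx ht
      have hw0' := key w' hw' a' b' hx' ht'
      -- kernel of the trace
      have hFD : FiniteDimensional K E := Module.finite_of_finrank_pos (by rw [h3]; norm_num)
      have hker : finrank K (LinearMap.ker tr) = 2 := by
        have e1 := LinearMap.finrank_range_add_finrank_ker tr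
        have e2 : LinearMap.range tr = ⊤ := by
          rw [LinearMap.range_eq_top]
          intro k
          refine ⟨algebraMap K E (3⁻¹ * k), ?_⟩
          rw [h.tr_algebraMap, ← mul_assoc, mul_inv_cancel₀ h.three', one_mul]
        rw [e2, finrank_top, h3, Module.finrank_self] at e1
        omega
      have hspan : ∀ w : E, w ≠ 0 → tr w = 0 → Submodule.span K {w, φ w} = LinearMap.ker tr := by
        intro w hw hw0
        refine Submodule.eq_of_le_of_finrank_eq ?_ ?_
        · rw [Submodule.span_le]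
          rintro x (rfl | rfl)
          · exact hw0
          · show tr (φ w) = 0
            rw [h.tr_phi, hw0]
        · rw [hker]
          have hli : LinearIndependent K ![w, φ w] := by
            rw [LinearIndependent.pair_iff]
            intro a b hab
            exact h.li hw hab (by rw [hw0, mul_zero])
          have h1 := finrank_span_eq_card hli
          rw [Fintype.card_fin, Matrix.range_cons, Matrix.range_cons, Matrix.range_empty,
            Set.union_empty, Set.singleton_union] at h1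
          exact h1
      have hmem : ∀ w : E, w ≠ 0 → tr w = 0 → ∀ v, v ∈ Lw e φ tr w ↔
          (e v).1 ∈ LinearMap.ker tr ∧ (e v).2 = 0 := by
        intro w hw hw0 v
        rw [mem_Lw, ← hspan w hw hw0, Submodule.mem_span_pair]
        constructor
        · rintro ⟨a, b, h1, h2⟩
          exact ⟨⟨a, b, h1.symm⟩, by rw [h2, hw0, mul_zero]⟩
        · rintro ⟨⟨a, b, h1⟩, h2⟩
          exact ⟨a, b, h1.symm, by rw [h2, hw0, mul_zero]⟩
      ext v
      rw [hmem w hw hw0, hmem w' hw' hw0']
    · -- the vector is proportional to both generators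
      have key : ∀ (w : E) (a b : K), (e v).1 = a • w + b • φ w → 0 = b * tr w →
          (e v).1 = a • w := by
        intro w a b hx ht
        rcases mul_eq_zero.1 ht.symm with hb | hb
        · rw [hx, hb, zero_smul, add_zero]
        · exfalso
          apply htr
          rw [hx, map_add, map_smul, map_smul, h.tr_phi, hb, smul_zero, smul_zero, add_zero]
      have e1 := key w a b hx ht
      have e2 := key w' a' b' hx' ht'
      have ha : a ≠ 0 := by
        rintro rfl
        exact hx0 (by rw [e1, zero_smul])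
      have ha' : a' ≠ 0 := by
        rintro rfl
        exact hx0 (by rw [e2, zero_smul])
      rw [← Lw_smul e ha w, ← Lw_smul e ha' w', ← e1, ← e2]
  · -- the generic case
    have hb : b ≠ 0 := by
      rintro rfl
      exact ht0 (by rw [ht, zero_mul])
    have hb' : b' ≠ 0 := by
      rintro rfl
      exact ht0 (by rw [ht', zero_mul])
    rw [← Lw_smul e hb w, ← Lw_smul e hb' w']
    congr 1
    -- normalised generators
    set z := b • w with hz
    set z' := b' • w' with hz'
    have e1 : (e v).1 = (a * b⁻¹) • z + φ z := by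
      rw [hx, hz, Cubic.phi_smul, smul_smul, mul_assoc, inv_mul_cancel₀ hb, mul_one]
    have e1' : (e v).1 = (a' * b'⁻¹) • z' + φ z' := by
      rw [hx', hz', Cubic.phi_smul, smul_smul, mul_assoc, inv_mul_cancel₀ hb', mul_one]
    have e2 : tr z = (e v).2 := by rw [hz, map_smul, ht, smul_eq_mul]
    have e2' : tr z' = (e v).2 := by rw [hz', map_smul, ht', smul_eq_mul]
    have e3 : a * b⁻¹ = a' * b'⁻¹ := by
      have f1 : tr (e v).1 = (a * b⁻¹ + 1) * (e v).2 := by
        rw [e1, map_add, map_smul, h.tr_phi, e2, smul_eq_mul]; ring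
      have f2 : tr (e v).1 = (a' * b'⁻¹ + 1) * (e v).2 := by
        rw [e1', map_add, map_smul, h.tr_phi, e2', smul_eq_mul]; ring
      have f3 : (a * b⁻¹ - a' * b'⁻¹) * (e v).2 = 0 := by linear_combination f2 - f1
      rcases mul_eq_zero.1 f3 with f4 | f4
      · exact sub_eq_zero.1 f4
      · exact absurd f4 ht0
    by_contra hne
    have hd : z - z' ≠ 0 := sub_ne_zero.2 hne
    have e4 : φ (z - z') = (-(a * b⁻¹)) • (z - z') := by
      rw [map_sub, neg_smul, smul_sub]
      have f1 : φ z = (e v).1 - (a * b⁻¹) • z := by rw [e1]; abel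
      have f2 : φ z' = (e v).1 - (a * b⁻¹) • z' := by rw [e1', e3]; abel
      rw [f1, f2]; abel
    have e5 := h.eigen hd e4
    rw [e5, one_smul] at e4
    exact hd (h.eq_zero_of_fixed e4 (by rw [map_sub, e2, e2', sub_self]))

theorem isSpread_spreadS (h : Cubic K E φ tr) (h3 : finrank K E = 3) (h4 : finrank K V = 4)
    (e : V ≃ₗ[K] E × K) : IsSpread K V (spreadS e φ tr) := by
  have h1 : ∀ l ∈ spreadS e φ tr, IsLine K V l := by
    rintro _ ⟨w, hw, rfl⟩
    exact ⟨_, finrank_Lw h e hw, rfl⟩
  have h2 : ∀ P : ℙ K V, ∃! l, l ∈ spreadS e φ tr ∧ P ∈ l := by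
    intro P
    induction P using Projectivization.ind with
    | h v hv =>
      have hev : ¬ ((e v).1 = 0 ∧ (e v).2 = 0) := fun h0 => hv (by
        have : e v = 0 := Prod.ext h0.1 h0.2
        simpa using this)
      obtain ⟨w, hw, a, b, hx, ht⟩ := h.exists_gen hev
      refine ⟨pts (Lw e φ tr w), ⟨⟨w, hw, rfl⟩, ?_⟩, ?_⟩
      · rw [mk_mem_pts]
        exact mem_Lw.2 ⟨a, b, hx, ht⟩
      · rintro _ ⟨⟨w', hw', rfl⟩, hvm⟩
        rw [mk_mem_pts] at hvm
        rw [Lw_eq h h3 e hw' hw hv hvm (mem_Lw.2 ⟨a, b, hx, ht⟩)]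
  exact ⟨ncard_of_partition h4 h1 h2, h1, h2⟩

/-- multiplication by a unit on the first coordinate -/
noncomputable def lin (e : V ≃ₗ[K] E × K) (x : Eˣ) : V →ₗ[K] V :=
  e.symm.toLinearMap ∘ₗ
    (LinearMap.prodMap (LinearMap.mulLeft K (x : E)) LinearMap.id) ∘ₗ e.toLinearMap

theorem e_lin (e : V ≃ₗ[K] E × K) (x : Eˣ) (v : V) :
    e (lin e x v) = ((x : E) * (e v).1, (e v).2) := by
  simp [lin]

theorem lin_mul (e : V ≃ₗ[K] E × K) (x y : Eˣ) (v : V) :
    lin e (x * y) v = lin e x (lin e y v) := by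
  apply e.injective
  rw [e_lin, e_lin, e_lin]
  simp [mul_assoc]

theorem lin_one (e : V ≃ₗ[K] E × K) (v : V) : lin e (1 : Eˣ) v = v := by
  apply e.injective
  rw [e_lin]
  simp

theorem lin_inj (e : V ≃ₗ[K] E × K) (x : Eˣ) : Function.Injective (lin e x) := by
  intro v w hvw
  have : lin e x⁻¹ (lin e x v) = lin e x⁻¹ (lin e x w) := by rw [hvw]
  rwa [← lin_mul, ← lin_mul, inv_mul_cancel, lin_one, lin_one] at this

/-- the action of the units on points -/
noncomputable def act (e : V ≃ₗ[K] E × K) (x : Eˣ) : Equiv.Perm (ℙ K V) where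
  toFun := Projectivization.map (lin e x) (lin_inj e x)
  invFun := Projectivization.map (lin e x⁻¹) (lin_inj e x⁻¹)
  left_inv := by
    intro P
    induction P using Projectivization.ind with
    | h v hv =>
      rw [Projectivization.map_mk, Projectivization.map_mk]
      congr 1
      rw [← lin_mul, inv_mul_cancel, lin_one]
  right_inv := by
    intro P
    induction P using Projectivization.ind with
    | h v hv =>
      rw [Projectivization.map_mk, Projectivization.map_mk]
      congr 1
      rw [← lin_mul, mul_inv_cancel, lin_one]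

theorem act_mk (e : V ≃ₗ[K] E × K) (x : Eˣ) {v : V} (hv : v ≠ 0) :
    act e x (Projectivization.mk K v hv) =
      Projectivization.mk K (lin e x v) ((map_zero (lin e x)) ▸ (lin_inj e x).ne hv) := rfl

theorem act_mul (e : V ≃ₗ[K] E × K) (x y : Eˣ) : act e (x * y) = act e x * act e y := by
  ext P
  induction P using Projectivization.ind with
  | h v hv =>
    rw [Equiv.Perm.mul_apply, act_mk, act_mk, act_mk]
    congr 1
    exact lin_mul e x y v

theorem act_one (e : V ≃ₗ[K] E × K) : act e (1 : Eˣ) = 1 := by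
  ext P
  induction P using Projectivization.ind with
  | h v hv =>
    rw [act_mk]
    simp only [Equiv.Perm.coe_one, id_eq]
    congr 1
    exact lin_one e v

theorem act_pow (e : V ≃ₗ[K] E × K) (x : Eˣ) (k : ℕ) : act e x ^ k = act e (x ^ k) := by
  induction k with
  | zero => rw [pow_zero, pow_zero, act_one]
  | succ k ih => rw [pow_succ, pow_succ, act_mul, ih]

theorem act_pts (e : V ≃ₗ[K] E × K) (x : Eˣ) (W : Submodule K V) :
    act e x '' pts W = pts (W.map (lin e x)) := by
  ext P
  constructor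
  · rintro ⟨Q, hQ, rfl⟩
    induction Q using Projectivization.ind with
    | h v hv =>
      rw [act_mk, mk_mem_pts]
      rw [mk_mem_pts] at hQ
      exact Submodule.mem_map_of_mem hQ
  · intro hP
    induction P using Projectivization.ind with
    | h v hv =>
      rw [mk_mem_pts, Submodule.mem_map] at hP
      obtain ⟨w, hw, hwv⟩ := hP
      have hw0 : w ≠ 0 := by
        rintro rfl
        rw [map_zero] at hwv
        exact hv hwv.symm
      refine ⟨Projectivization.mk K w hw0, (mk_mem_pts hw0).2 hw, ?_⟩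
      rw [act_mk]
      congr 1

theorem isCollineation_act (e : V ≃ₗ[K] E × K) (x : Eˣ) : IsCollineation K V (act e x) := by
  rintro _ ⟨W, hW, rfl⟩
  refine ⟨W.map (lin e x), ?_, act_pts e x W⟩
  rw [← (Submodule.equivMapOfInjective (lin e x) (lin_inj e x) W).finrank_eq, hW]

/-- different translates of the spread are disjoint -/
theorem act_disj (h : Cubic K E φ tr) (e : V ≃ₗ[K] E × K) {x : Eˣ}
    (hx : (x : E) * φ x * φ (φ x) = 1) (hx1 : x ≠ 1) {l : Set (ℙ K V)}
    (hl : l ∈ spreadS e φ tr) (hl' : act e x '' l ∈ spreadS e φ tr) : False := by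
  obtain ⟨w, hw, rfl⟩ := hl
  obtain ⟨w', hw', hww⟩ := hl'
  rw [act_pts] at hww
  have h1 := pts_inj hww
  have m1 : lin e x (e.symm (w, 0)) ∈ Lw e φ tr w' := by
    rw [← h1]
    exact Submodule.mem_map_of_mem (Submodule.subset_span (by simp))
  have m2 : lin e x (e.symm (φ w, tr w)) ∈ Lw e φ tr w' := by
    rw [← h1]
    exact Submodule.mem_map_of_mem (Submodule.subset_span (by simp))
  rw [mem_Lw, e_lin, LinearEquiv.apply_symm_apply] at m1 m2
  obtain ⟨a1, b1, e1, e2⟩ := m1
  obtain ⟨a2, b2, e3, e4⟩ := m2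
  exact h.disj hx (fun h0 => hx1 (Units.ext h0)) hw e1 e2 e3 e4

end Construction

/-- An element of order `q ^ 2 + q + 1`. -/
theorem exists_order {E : Type w} [Field E] [Finite E] {q : ℕ} (hq : 2 ≤ q)
    (hE : Nat.card E = q ^ 3) : ∃ x : Eˣ, orderOf x = q ^ 2 + q + 1 := by
  classical
  have : Fintype E := Fintype.ofFinite E
  obtain ⟨g, hg⟩ := IsCyclic.exists_ofOrder_eq_natCard (α := Eˣ)
  have h1 : Nat.card Eˣ = q ^ 3 - 1 := by
    rw [Nat.card_eq_fintype_card, Fintype.card_units, ← Nat.card_eq_fintype_card, hE]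
  have h2 : q ^ 3 - 1 = (q - 1) * (q ^ 2 + q + 1) := by
    obtain ⟨m, rfl⟩ := Nat.exists_eq_add_of_le hq
    have e1 : 2 + m - 1 = m + 1 := by omega
    rw [e1]
    have e2 : (2 + m) ^ 3 = (m + 1) * ((2 + m) ^ 2 + (2 + m) + 1) + 1 := by ring
    omega
  refine ⟨g ^ (q - 1), ?_⟩
  rw [orderOf_pow_of_dvd (by omega) (by rw [hg, h1, h2]; exact dvd_mul_right _ _), hg, h1, h2]
  exact Nat.mul_div_cancel_left _ (by omega)

/-- Cyclic packings exist for `q = 2` modulo three. -/
theorem exists_cyclicPacking (h4 : finrank K V = 4) (hq : Nat.card K % 3 = 2) :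
    ∃ Pk : Set (Set (Set (ℙ K V))), IsCyclicPacking K V Pk := by
  classical
  have hFK : Fintype K := Fintype.ofFinite K
  obtain ⟨p, hpc, e0, hp, hcard⟩ := FiniteField.card' K
  have : Fact p.Prime := ⟨hp⟩
  let E := FiniteField.Extension K p 3
  have h3 : finrank K E = 3 := FiniteField.finrank_extension K p 3
  have hcE : Nat.card E = Nat.card K ^ 3 := FiniteField.natCard_extension K p 3
  obtain ⟨φ, hφ, h⟩ := exists_cubic K E h3 hq
  set tr : E →ₗ[K] K := Algebra.trace K E with htr
  have hFD : FiniteDimensional K E := Module.finite_of_finrank_pos (by rw [h3]; norm_num)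
  obtain ⟨e⟩ : Nonempty (V ≃ₗ[K] E × K) := by
    refine FiniteDimensional.nonempty_linearEquiv_of_finrank_eq ?_
    rw [Module.finrank_prod, h3, h4, Module.finrank_self]
  obtain ⟨x, hx⟩ := exists_order (card_ge_two (K := K)) hcE
  set n := Nat.card K ^ 2 + Nat.card K + 1 with hn
  set S := spreadS e φ tr with hS
  have hSs : IsSpread K V S := isSpread_spreadS h h3 h4 e
  let f : ℕ → Set (Set (ℙ K V)) := fun k => actSpread (act e (x ^ k)) S
  have hfs : ∀ k, IsSpread K V (f k) := fun k => hSs.act h4 (isCollineation_act e _)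
  have hxn : x ^ n = 1 := by rw [← hx]; exact pow_orderOf_eq_one x
  -- disjointness
  have hdisj : ∀ i j, x ^ i ≠ x ^ j → Disjoint (f i) (f j) := by
    intro i j hij
    rw [Set.disjoint_left]
    rintro l ⟨l1, hl1, rfl⟩ ⟨l2, hl2, hl⟩
    have hl' : act e (x ^ j) '' l2 = act e (x ^ i) '' l1 := hl
    set y : Eˣ := (x ^ j)⁻¹ * x ^ i with hy
    have hy1 : y ≠ 1 := by
      intro h0
      apply hij
      rw [hy, inv_mul_eq_one] at h0
      exact h0.symm
    have hyn : y ^ n = 1 := by
      rw [hy, mul_pow, inv_pow, ← pow_mul, ← pow_mul, mul_comm j n, mul_comm i n, pow_mul, pow_mul,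
        hxn, one_pow, one_pow, inv_one, one_mul]
    have hyN : (y : E) * φ y * φ (φ y) = 1 := by
      rw [hφ, hφ]
      have : (y : E) * (y : E) ^ Nat.card K * ((y : E) ^ Nat.card K) ^ Nat.card K =
          ((y ^ n : Eˣ) : E) := by
        rw [hn]
        push_cast
        ring
      rw [this, hyn]
      rfl
    refine act_disj h e hyN hy1 hl1 ?_
    have : act e y '' l1 = l2 := by
      have e1 : act e y '' l1 = act e (x ^ j)⁻¹ '' (act e (x ^ i) '' l1) := by
        rw [Set.image_image, hy, act_mul]; rfl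
      rw [e1, ← hl', Set.image_image]
      have e2 : ∀ P, act e (x ^ j)⁻¹ (act e (x ^ j) P) = P := by
        intro P
        rw [← Equiv.Perm.mul_apply, ← act_mul, inv_mul_cancel, act_one]
        rfl
      simp [e2]
    rw [this]
    exact hl2
  have hne : ∀ k, (f k).Nonempty := fun k =>
    Set.nonempty_of_ncard_ne_zero (by rw [(hfs k).1]; omega)
  have hfeq : ∀ i j, f i = f j → x ^ i = x ^ j := by
    intro i j hij
    by_contra hne'
    have := hdisj i j hne'
    rw [hij] at this
    exact (hne j).ne_empty (disjoint_self.1 this)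
  have hfmod : ∀ k, f k = f (k % n) := by
    intro k
    simp only [f]
    rw [← hx, pow_mod_orderOf]
  have hstep : ∀ k, actSpread (act e x) (f k) = f (k + 1) := by
    intro k
    simp only [f, actSpread]
    rw [Set.image_image]
    refine Set.image_congr fun l _ => ?_
    rw [Set.image_image]
    refine Set.image_congr fun P _ => ?_
    rw [pow_succ', act_mul]
    rfl
  let Pk : Set (Set (Set (ℙ K V))) := f '' Set.Iio n
  have hmem : ∀ k, f k ∈ Pk := fun k =>
    ⟨k % n, Nat.mod_lt _ (by omega), (hfmod k).symm⟩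
  have hcardPk : Pk.ncard = n := by
    rw [Set.InjOn.ncard_image]
    · rw [← Finset.coe_range, Set.ncard_coe_finset, Finset.card_range]
    · intro i hi j hj hij
      have := hfeq i j hij
      exact pow_injOn_Iio_orderOf (by rw [hx]; exact hi) (by rw [hx]; exact hj) this
  refine ⟨Pk, isPacking_of_disjoint h4 hcardPk ?_ ?_, act e x, isCollineation_act e x, ?_, ?_, ?_⟩
  · rintro _ ⟨k, _, rfl⟩
    exact hfs k
  · rintro _ ⟨i, _, rfl⟩ _ ⟨j, _, rfl⟩ hij
    refine hdisj i j fun h0 => hij ?_
    simp only [f, h0]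
  · -- the order
    rw [← hn, ← hx]
    refine orderOf_eq_orderOf_iff.2 fun k => ?_
    rw [act_pow]
    constructor
    · intro h0
      have e1 : f k = f 0 := by
        simp only [f]
        rw [h0, pow_zero, act_one]
      have := hfeq k 0 e1
      rwa [pow_zero] at this
    · intro h0
      rw [h0, act_one]
  · rintro _ ⟨k, _, rfl⟩
    rw [hstep]
    exact hmem _
  · rintro _ ⟨i, hi, rfl⟩ _ ⟨j, _, rfl⟩
    refine ⟨j + (n - i), ?_⟩
    have e1 : ∀ m k, (actSpread (act e x))^[m] (f k) = f (k + m) := by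
      intro m k
      induction m with
      | zero => rfl
      | succ m ih => rw [Function.iterate_succ_apply', ih, hstep]; rfl
    rw [e1, hfmod]
    have e2 : i + (j + (n - i)) = j + n := by
      have : i < n := hi
      omega
    rw [e2, Nat.add_mod_right, ← hfmod]

end Pool.Agent.Lib.MP_53cbe0_co
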