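import Pool.Agent.Lib.MP_53cbe0_co.Defs

/-!
# Incidence in a three-dimensional projective space
-/

set_option autoImplicit false
set_option linter.unusedSectionVars false

namespace Pool.Agent.Lib.MP_53cbe0_co

open scoped LinearAlgebra.Projectivization
open Module

universe u v

variable {K : Type u} {V : Type v} [Field K] [AddCommGroup V] [Module K V]

/-- The set of points of a subspace. -/
def pts (W : Submodule K V) : Set (ℙ K V) := {P : ℙ K V | P.submodule ≤ W}

theorem mem_pts {W : Submodule K V} {P : ℙ K V} : P ∈ pts W ↔ P.submodule ≤ W := Iff.rfl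

theorem mk_mem_pts {W : Submodule K V} {v : V} (hv : v ≠ 0) :
    Projectivization.mk K v hv ∈ pts W ↔ v ∈ W := by
  rw [mem_pts, Projectivization.submodule_mk, Submodule.span_singleton_le_iff_mem]

theorem pts_subset {W W' : Submodule K V} : pts W ⊆ pts W' ↔ W ≤ W' := by
  constructor
  · intro h v hv
    by_cases h0 : v = 0
    · rw [h0]; exact W'.zero_mem
    · exact (mk_mem_pts h0).1 (h ((mk_mem_pts h0).2 hv))
  · intro h P hP
    exact le_trans hP h

theorem pts_inj {W W' : Submodule K V} (h : pts W = pts W') : W = W' :=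
  le_antisymm (pts_subset.1 h.subset) (pts_subset.1 h.symm.subset)

theorem pts_inf (W W' : Submodule K V) : pts (W ⊓ W') = pts W ∩ pts W' := by
  ext P
  simp only [mem_pts, Set.mem_inter_iff, le_inf_iff]

theorem isLine_iff {l : Set (ℙ K V)} :
    IsLine K V l ↔ ∃ W : Submodule K V, finrank K W = 2 ∧ l = pts W := Iff.rfl

theorem pts_eq_range (W : Submodule K V) :
    pts W = Set.range (Projectivization.map W.subtype W.injective_subtype) := by
  ext P
  induction P using Projectivization.ind with
  | h v hv =>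
    rw [mk_mem_pts]
    constructor
    · intro h
      refine ⟨Projectivization.mk K (⟨v, h⟩ : W) (fun h0 => hv (congrArg Subtype.val h0)), ?_⟩
      rfl
    · rintro ⟨Q, hQ⟩
      induction Q using Projectivization.ind with
      | h w hw =>
        rw [Projectivization.map_mk, Projectivization.mk_eq_mk_iff'] at hQ
        obtain ⟨a, ha⟩ := hQ
        -- a • v = w
        have hw0 : (w : V) ≠ 0 := fun h0 => hw (Subtype.ext h0)
        have ha' : a • v = (w : V) := ha
        have ha0 : a ≠ 0 := by
          rintro rfl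
          rw [zero_smul] at ha'
          exact hw0 ha'.symm
        have : v = a⁻¹ • (w : V) := by rw [← ha', smul_smul, inv_mul_cancel₀ ha0, one_smul]
        rw [this]
        exact W.smul_mem _ w.2

variable [Finite K] [FiniteDimensional K V]

instance finite_pts : Finite (ℙ K V) := by
  have : Finite V := Module.finite_of_finite K
  infer_instance

theorem ncard_pts (W : Submodule K V) :
    (pts W).ncard = ∑ i ∈ Finset.range (finrank K W), Nat.card K ^ i := by
  rw [pts_eq_range, Set.ncard_range_of_injective (Projectivization.map_injective _ _),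
    Projectivization.card_of_finrank K W rfl]

theorem card_ge_two : 2 ≤ Nat.card K := Finite.one_lt_card

theorem geom_strictMono : StrictMono fun n : ℕ => ∑ i ∈ Finset.range n, Nat.card K ^ i := by
  refine strictMono_nat_of_lt_succ fun n => ?_
  rw [Finset.sum_range_succ]
  have : 0 < Nat.card K ^ n := pow_pos Nat.card_pos n
  omega

theorem finrank_of_ncard {W : Submodule K V} {n : ℕ}
    (h : (pts W).ncard = ∑ i ∈ Finset.range n, Nat.card K ^ i) : finrank K W = n := by
  rw [ncard_pts] at h
  exact (geom_strictMono (K := K)).injective h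

theorem IsLine.ncard {l : Set (ℙ K V)} (h : IsLine K V l) : l.ncard = Nat.card K + 1 := by
  obtain ⟨W, hW, rfl⟩ := isLine_iff.1 h
  rw [ncard_pts, hW]
  simp [Finset.sum_range_succ]
  ring

/-- The line joining two points. -/
def lineOf (P Q : ℙ K V) : Set (ℙ K V) := pts (P.submodule ⊔ Q.submodule)

theorem finrank_sup {P Q : ℙ K V} (h : P ≠ Q) :
    finrank K (P.submodule ⊔ Q.submodule : Submodule K V) = 2 := by
  have h1 := Submodule.finrank_sup_add_finrank_inf_eq P.submodule Q.submodule
  rw [Projectivization.finrank_submodule, Projectivization.finrank_submodule] at h1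
  have h2 : finrank K (P.submodule ⊓ Q.submodule : Submodule K V) = 0 := by
    by_contra h0
    have h3 : finrank K (P.submodule ⊓ Q.submodule : Submodule K V) ≤ 1 := by
      have := Submodule.finrank_mono (inf_le_left : P.submodule ⊓ Q.submodule ≤ P.submodule)
      rwa [Projectivization.finrank_submodule] at this
    have h4 : finrank K (P.submodule ⊓ Q.submodule : Submodule K V) = 1 := by omega
    have h5 : P.submodule ⊓ Q.submodule = P.submodule :=
      Submodule.eq_of_le_of_finrank_eq inf_le_left (by rw [h4, Projectivization.finrank_submodule])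
    have h6 : P.submodule ⊓ Q.submodule = Q.submodule :=
      Submodule.eq_of_le_of_finrank_eq inf_le_right (by rw [h4, Projectivization.finrank_submodule])
    exact h (Projectivization.submodule_injective (h5.symm.trans h6))
  omega

theorem isLine_lineOf {P Q : ℙ K V} (h : P ≠ Q) : IsLine K V (lineOf P Q) :=
  ⟨_, finrank_sup h, rfl⟩

omit [Finite K] [FiniteDimensional K V] in
theorem left_mem_lineOf (P Q : ℙ K V) : P ∈ lineOf P Q := mem_pts.2 le_sup_left

omit [Finite K] [FiniteDimensional K V] in
theorem right_mem_lineOf (P Q : ℙ K V) : Q ∈ lineOf P Q := mem_pts.2 le_sup_right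

theorem eq_lineOf {l : Set (ℙ K V)} (hl : IsLine K V l) {P Q : ℙ K V} (hP : P ∈ l) (hQ : Q ∈ l)
    (h : P ≠ Q) : l = lineOf P Q := by
  obtain ⟨W, hW, rfl⟩ := isLine_iff.1 hl
  have h1 : P.submodule ⊔ Q.submodule ≤ W := sup_le hP hQ
  rw [lineOf, Submodule.eq_of_le_of_finrank_eq h1 (by rw [finrank_sup h, hW])]

theorem line_eq {l m : Set (ℙ K V)} (hl : IsLine K V l) (hm : IsLine K V m) {P Q : ℙ K V}
    (hPl : P ∈ l) (hQl : Q ∈ l) (hPm : P ∈ m) (hQm : Q ∈ m) (h : P ≠ Q) : l = m :=
  (eq_lineOf hl hPl hQl h).trans (eq_lineOf hm hPm hQm h).symm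

/-- A plane, as a set of points. -/
def IsPlane (X : Set (ℙ K V)) : Prop := ∃ W : Submodule K V, finrank K W = 3 ∧ X = pts W

theorem IsPlane.ncard {X : Set (ℙ K V)} (h : IsPlane X) :
    X.ncard = Nat.card K ^ 2 + Nat.card K + 1 := by
  obtain ⟨W, hW, rfl⟩ := h
  rw [ncard_pts, hW]
  simp [Finset.sum_range_succ]
  ring

/-- A set of points closed under joining. -/
def Closed (X : Set (ℙ K V)) : Prop := ∀ P ∈ X, ∀ Q ∈ X, P ≠ Q → lineOf P Q ⊆ X

omit [Finite K] [FiniteDimensional K V] in
theorem closed_pts (W : Submodule K V) : Closed (pts W) := by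
  intro P hP Q hQ _
  exact pts_subset.2 (sup_le hP hQ)

omit [Finite K] [FiniteDimensional K V] in
theorem Closed.eq_pts {X : Set (ℙ K V)} (h : Closed X) : ∃ W : Submodule K V, X = pts W := by
  let S : Projectivization.Subspace K V :=
    { carrier := X
      mem_add' := by
        intro v w hv hw hvw h1 h2
        by_cases h3 : Projectivization.mk K v hv = Projectivization.mk K w hw
        · have h4 : Projectivization.mk K (v + w) hvw = Projectivization.mk K w hw := by
            rw [Projectivization.mk_eq_mk_iff'] at h3 ⊢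
            obtain ⟨a, ha⟩ := h3
            exact ⟨a + 1, by rw [add_smul, one_smul, ha]⟩
          rw [h4]
          exact h2
        · refine h _ h1 _ h2 h3 ?_
          rw [lineOf, mk_mem_pts, Projectivization.submodule_mk, Projectivization.submodule_mk]
          exact Submodule.add_mem_sup (Submodule.mem_span_singleton_self v)
            (Submodule.mem_span_singleton_self w) }
  refine ⟨Projectivization.Subspace.submodule S, ?_⟩
  ext P
  induction P using Projectivization.ind with
  | h v hv =>
    rw [mk_mem_pts, Projectivization.Subspace.mem_submodule_iff S hv]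
    rfl

omit [Finite K] in
theorem IsPlane.closed {X : Set (ℙ K V)} (h : IsPlane X) : Closed X := by
  obtain ⟨W, _, rfl⟩ := h
  exact closed_pts W

omit [Finite K] [FiniteDimensional K V] in
theorem exists_mem_pts {W : Submodule K V} (h : 0 < finrank K W) : ∃ P, P ∈ pts W := by
  have : W ≠ ⊥ := by
    rintro rfl
    simp at h
  obtain ⟨v, hv, hv0⟩ := Submodule.exists_mem_ne_zero_of_ne_bot this
  exact ⟨Projectivization.mk K v hv0, (mk_mem_pts hv0).2 hv⟩

/-- A line meets a plane. -/
theorem exists_meet (h4 : finrank K V = 4) {X l : Set (ℙ K V)} (hX : IsPlane X)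
    (hl : IsLine K V l) : ∃ P, P ∈ l ∧ P ∈ X := by
  obtain ⟨W, hW, rfl⟩ := hX
  obtain ⟨L, hL, rfl⟩ := isLine_iff.1 hl
  have h1 := Submodule.finrank_sup_add_finrank_inf_eq L W
  have h2 := Submodule.finrank_le (L ⊔ W)
  have h3 : 0 < finrank K (L ⊓ W : Submodule K V) := by omega
  obtain ⟨P, hP⟩ := exists_mem_pts h3
  rw [pts_inf] at hP
  exact ⟨P, hP.1, hP.2⟩

/-- A line not contained in a plane meets it in exactly one point. -/
theorem existsUnique_meet (h4 : finrank K V = 4) {X l : Set (ℙ K V)} (hX : IsPlane X)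
    (hl : IsLine K V l) (hn : ¬ l ⊆ X) : ∃! P, P ∈ l ∧ P ∈ X := by
  obtain ⟨P, hP⟩ := exists_meet h4 hX hl
  refine ⟨P, hP, fun Q hQ => ?_⟩
  by_contra hne
  apply hn
  rw [eq_lineOf hl hQ.1 hP.1 hne]
  exact hX.closed _ hQ.2 _ hP.2 hne

/-- Two lines of a plane meet. -/
theorem exists_meet_lines {X l m : Set (ℙ K V)} (hX : IsPlane X)
    (hl : IsLine K V l) (hm : IsLine K V m) (hlX : l ⊆ X) (hmX : m ⊆ X) :
    ∃ P, P ∈ l ∧ P ∈ m := by
  obtain ⟨W, hW, rfl⟩ := hX
  obtain ⟨L, hL, rfl⟩ := isLine_iff.1 hl
  obtain ⟨M, hM, rfl⟩ := isLine_iff.1 hm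
  have h1 := Submodule.finrank_sup_add_finrank_inf_eq L M
  have h2 : finrank K (L ⊔ M : Submodule K V) ≤ 3 := by
    rw [← hW]
    exact Submodule.finrank_mono (sup_le (pts_subset.1 hlX) (pts_subset.1 hmX))
  have h3 : 0 < finrank K (L ⊓ M : Submodule K V) := by omega
  obtain ⟨P, hP⟩ := exists_mem_pts h3
  rw [pts_inf] at hP
  exact ⟨P, hP.1, hP.2⟩

/-- Two planes meet in a line. -/
theorem isLine_inter (h4 : finrank K V = 4) {X Y : Set (ℙ K V)} (hX : IsPlane X)
    (hY : IsPlane Y) (hne : X ≠ Y) : IsLine K V (X ∩ Y) := by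
  obtain ⟨W, hW, rfl⟩ := hX
  obtain ⟨W', hW', rfl⟩ := hY
  refine ⟨W ⊓ W', ?_, (pts_inf W W').symm⟩
  have h1 := Submodule.finrank_sup_add_finrank_inf_eq W W'
  have h2 := Submodule.finrank_le (W ⊔ W')
  have h3 : finrank K (W ⊓ W' : Submodule K V) < 3 := by
    have h5 := Submodule.finrank_mono (inf_le_left : W ⊓ W' ≤ W)
    have h6 : finrank K (W ⊓ W' : Submodule K V) ≠ 3 := by
      intro h6
      apply hne
      have e1 : W ⊓ W' = W := Submodule.eq_of_le_of_finrank_eq inf_le_left (by rw [h6, hW])
      have e2 : W ⊓ W' = W' := Submodule.eq_of_le_of_finrank_eq inf_le_right (by rw [h6, hW'])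
      rw [← e1, e2]
    omega
  omega

/-- The plane through a line and a point. -/
theorem exists_plane {P Q R : ℙ K V} (h : P ≠ Q) (hR : R ∉ lineOf P Q) :
    ∃ X, IsPlane X ∧ P ∈ X ∧ Q ∈ X ∧ R ∈ X ∧
      ∀ Y, IsPlane Y → P ∈ Y → Q ∈ Y → R ∈ Y → Y = X := by
  have h1 := Submodule.finrank_sup_add_finrank_inf_eq (P.submodule ⊔ Q.submodule) R.submodule
  rw [finrank_sup h, Projectivization.finrank_submodule] at h1
  have h2 : finrank K ((P.submodule ⊔ Q.submodule) ⊓ R.submodule : Submodule K V) = 0 := by
    by_contra h0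
    have h3 : finrank K ((P.submodule ⊔ Q.submodule) ⊓ R.submodule : Submodule K V) ≤ 1 := by
      have := Submodule.finrank_mono
        (inf_le_right : (P.submodule ⊔ Q.submodule) ⊓ R.submodule ≤ R.submodule)
      rwa [Projectivization.finrank_submodule] at this
    have h5 : (P.submodule ⊔ Q.submodule) ⊓ R.submodule = R.submodule :=
      Submodule.eq_of_le_of_finrank_eq inf_le_right
        (by rw [Projectivization.finrank_submodule]; omega)
    exact hR (inf_eq_right.1 h5)
  have h3 : finrank K ((P.submodule ⊔ Q.submodule) ⊔ R.submodule : Submodule K V) = 3 := by omega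
  refine ⟨pts ((P.submodule ⊔ Q.submodule) ⊔ R.submodule), ⟨_, h3, rfl⟩, ?_, ?_, ?_, ?_⟩
  · exact mem_pts.2 (le_sup_left.trans le_sup_left)
  · exact mem_pts.2 (le_sup_right.trans le_sup_left)
  · exact mem_pts.2 le_sup_right
  · rintro Y ⟨W, hW, rfl⟩ hP hQ hR'
    have : (P.submodule ⊔ Q.submodule) ⊔ R.submodule ≤ W := sup_le (sup_le hP hQ) hR'
    rw [Submodule.eq_of_le_of_finrank_eq this (by rw [h3, hW])]

section Coll

variable {σ : Equiv.Perm (ℙ K V)}

theorem image_lineOf (hσ : IsCollineation K V σ) {P Q : ℙ K V} (h : P ≠ Q) :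
    σ '' lineOf P Q = lineOf (σ P) (σ Q) :=
  eq_lineOf (hσ _ (isLine_lineOf h)) ⟨P, left_mem_lineOf P Q, rfl⟩ ⟨Q, right_mem_lineOf P Q, rfl⟩
    (σ.injective.ne h)

theorem image_plane (hσ : IsCollineation K V σ) {X : Set (ℙ K V)} (hX : IsPlane X) :
    IsPlane (σ '' X) := by
  have hcl : Closed (σ '' X) := by
    rintro _ ⟨P, hP, rfl⟩ _ ⟨Q, hQ, rfl⟩ hne
    have hPQ : P ≠ Q := fun h => hne (by rw [h])
    rw [← image_lineOf hσ hPQ]
    exact Set.image_mono (hX.closed P hP Q hQ hPQ)
  obtain ⟨W, hW⟩ := hcl.eq_pts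
  refine ⟨W, ?_, hW⟩
  apply finrank_of_ncard
  rw [← hW, Set.ncard_image_of_injective _ σ.injective, hX.ncard]
  simp [Finset.sum_range_succ]
  ring

end Coll

theorem card_points (h4 : finrank K V = 4) :
    Nat.card (ℙ K V) = Nat.card K * (Nat.card K ^ 2 + Nat.card K + 1) + 1 := by
  rw [Projectivization.card_of_finrank K V h4]
  simp [Finset.sum_range_succ]
  ring

/-- The number of planes. -/
theorem card_planes (h4 : finrank K V = 4) :
    Nat.card {X : Set (ℙ K V) // IsPlane X} =
      Nat.card K * (Nat.card K ^ 2 + Nat.card K + 1) + 1 := by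
  -- planes correspond to points of the dual space
  let e : ℙ K (Dual K V) → {X : Set (ℙ K V) // IsPlane X} := fun f =>
    ⟨pts f.submodule.dualCoannihilator, f.submodule.dualCoannihilator, by
      have h1 := Subspace.finrank_add_finrank_dualCoannihilator_eq f.submodule
      rw [Projectivization.finrank_submodule, h4] at h1
      omega, rfl⟩
  have he : Function.Bijective e := by
    constructor
    · intro f g hfg
      have h1 := pts_inj (congrArg Subtype.val hfg)
      apply Projectivization.submodule_injective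
      rw [← Subspace.dualCoannihilator_dualAnnihilator_eq (W := f.submodule), h1,
        Subspace.dualCoannihilator_dualAnnihilator_eq]
    · rintro ⟨X, W, hW, rfl⟩
      have h1 : finrank K W.dualAnnihilator = 1 := by
        have := Subspace.finrank_add_finrank_dualAnnihilator_eq W
        omega
      refine ⟨Projectivization.mk'' W.dualAnnihilator h1, ?_⟩
      apply Subtype.ext
      show pts _ = pts W
      rw [Projectivization.submodule_mk'', Subspace.dualAnnihilator_dualCoannihilator_eq]
  rw [← Nat.card_congr (Equiv.ofBijective e he)]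
  have h5 : finrank K (Dual K V) = 4 := by rw [Subspace.dual_finrank_eq, h4]
  exact card_points h5

end Pool.Agent.Lib.MP_53cbe0_co
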