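import Pool.Agent.Lib.MP_53cbe0_co.Inc
import Pool.Agent.Lib.MP_53cbe0_co.Diff

/-!
# Cyclic packings do not exist for `q = 0, 1` modulo three
-/

set_option autoImplicit false
set_option linter.unusedSectionVars false

namespace Pool.Agent.Lib.MP_53cbe0_co

open scoped LinearAlgebra.Projectivization
open Module

universe u v

/-- A group of order `n`, acting on a set of `k n + 1` elements such that every nontrivial element
has at most one fixed point, has a fixed point. -/
theorem exists_common_fix {α : Type*} [Finite α] {n : ℕ} (hn : 1 < n)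
    (ρ : ZMod n → Equiv.Perm α) (h0 : ρ 0 = 1) (hadd : ∀ u v, ρ (u + v) = ρ u * ρ v)
    {k : ℕ} (hcard : Nat.card α = k * n + 1)
    (huniq : ∀ u, u ≠ 0 → ∀ P Q, ρ u P = P → ρ u Q = Q → P = Q) : ∃ P, ∀ u, ρ u P = P := by
  classical
  have : Fintype α := Fintype.ofFinite α
  have : NeZero n := ⟨by omega⟩
  set p := n.minFac with hp
  have hpp : p.Prime := Nat.minFac_prime (by omega)
  have : Fact p.Prime := ⟨hpp⟩
  obtain ⟨m, hm⟩ : p ∣ n := Nat.minFac_dvd n
  have hm0 : 0 < m := by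
    rcases Nat.eq_zero_or_pos m with h | h
    · rw [h, mul_zero] at hm; omega
    · exact h
  have hmn : m < n := by
    rw [hm]
    nlinarith [hpp.two_le]
  have hu0 : ((m : ℕ) : ZMod n) ≠ 0 := by
    intro h
    rw [ZMod.natCast_eq_zero_iff] at h
    exact absurd (Nat.le_of_dvd hm0 h) (by omega)
  have hpow : ∀ (u : ZMod n) (j : ℕ), ρ u ^ j = ρ (j * u) := by
    intro u j
    induction j with
    | zero => simp [h0]
    | succ j ih => rw [pow_succ, ih, ← hadd]; congr 1; push_cast; ring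
  have hτ : ρ ((m : ℕ) : ZMod n) ^ p ^ 1 = 1 := by
    rw [pow_one, hpow, ← Nat.cast_mul, ← hm, ZMod.natCast_self, h0]
  have hnd : ¬ p ∣ Fintype.card α := by
    rw [← Nat.card_eq_fintype_card, hcard]
    intro h
    have h1 : p ∣ k * n := Dvd.dvd.mul_left ⟨m, hm⟩ k
    have h2 := (Nat.dvd_add_right h1).1 h
    exact hpp.one_lt.ne' (Nat.dvd_one.1 h2)
  obtain ⟨P, hP⟩ := Equiv.Perm.exists_fixed_point_of_prime hnd hτ
  refine ⟨P, fun u => ?_⟩
  refine huniq _ hu0 _ _ ?_ hP
  rw [← Equiv.Perm.mul_apply, ← hadd, add_comm, hadd, Equiv.Perm.mul_apply, hP]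

variable {K : Type u} {V : Type v} [Field K] [AddCommGroup V] [Module K V]

/-- A group of collineations parametrised by `ZMod n` and a spread containing exactly one line of
every orbit. -/
structure Cyc {n : ℕ} (ρ : ZMod n → Equiv.Perm (ℙ K V)) (S : Set (Set (ℙ K V))) : Prop where
  zero : ρ 0 = 1
  add : ∀ u v, ρ (u + v) = ρ u * ρ v
  coll : ∀ u, IsCollineation K V (ρ u)
  spread : IsSpread K V S
  line : ∀ l, IsLine K V l → ∃! u, ρ u '' l ∈ S

theorem actSpread_iterate {X : Type*} (σ : Equiv.Perm X) (S : Set (Set X)) (k : ℕ) :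
    (actSpread σ)^[k] S = actSpread (σ ^ k) S := by
  induction k with
  | zero => simp [actSpread]
  | succ k ih =>
    rw [Function.iterate_succ_apply', ih]
    unfold actSpread
    rw [Set.image_image]
    refine Set.image_congr fun l _ => ?_
    rw [Set.image_image]
    refine Set.image_congr fun x _ => ?_
    rw [pow_succ', Equiv.Perm.mul_apply]

theorem IsCollineation.pow {σ : Equiv.Perm (ℙ K V)} (h : IsCollineation K V σ) (k : ℕ) :
    IsCollineation K V (σ ^ k) := by
  induction k with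
  | zero => intro l hl; simpa using hl
  | succ k ih =>
    intro l hl
    have := h _ (ih l hl)
    rw [Set.image_image] at this
    rw [pow_succ']
    exact this

section Basic

variable {n : ℕ} {ρ : ZMod n → Equiv.Perm (ℙ K V)} {S : Set (Set (ℙ K V))}

theorem Cyc.neg_apply (h : Cyc ρ S) (u : ZMod n) (P : ℙ K V) : ρ (-u) (ρ u P) = P := by
  rw [← Equiv.Perm.mul_apply, ← h.add, neg_add_cancel, h.zero]
  rfl

theorem Cyc.apply_neg (h : Cyc ρ S) (u : ZMod n) (P : ℙ K V) : ρ u (ρ (-u) P) = P := by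
  rw [← Equiv.Perm.mul_apply, ← h.add, add_neg_cancel, h.zero]
  rfl

theorem Cyc.add_apply (h : Cyc ρ S) (u v : ZMod n) (P : ℙ K V) : ρ (u + v) P = ρ u (ρ v P) := by
  rw [h.add]; rfl

theorem Cyc.image_add (h : Cyc ρ S) (u v : ZMod n) (l : Set (ℙ K V)) :
    ρ (u + v) '' l = ρ u '' (ρ v '' l) := by
  rw [Set.image_image, h.add]
  rfl

theorem Cyc.image_neg (h : Cyc ρ S) (u : ZMod n) (l : Set (ℙ K V)) :
    ρ (-u) '' (ρ u '' l) = l := by
  rw [← h.image_add, neg_add_cancel, h.zero]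
  simp

theorem Cyc.neg_image (h : Cyc ρ S) (u : ZMod n) (l : Set (ℙ K V)) :
    ρ u '' (ρ (-u) '' l) = l := by
  rw [← h.image_add, add_neg_cancel, h.zero]
  simp

theorem Cyc.free_line (h : Cyc ρ S) {l : Set (ℙ K V)} (hl : IsLine K V l) {u : ZMod n}
    (hu : ρ u '' l = l) : u = 0 := by
  obtain ⟨v, hv, hv'⟩ := h.line l hl
  have h1 : ρ (v + u) '' l ∈ S := by
    rw [h.image_add, hu]
    exact hv
  have h2 := hv' _ h1
  simpa using h2

end Basic

variable [Finite K] [FiniteDimensional K V]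

theorem exists_cyc {Pk : Set (Set (Set (ℙ K V)))} (h : IsCyclicPacking K V Pk) :
    ∃ (ρ : ZMod (Nat.card K ^ 2 + Nat.card K + 1) → Equiv.Perm (ℙ K V))
      (S : Set (Set (ℙ K V))), Cyc ρ S := by
  obtain ⟨⟨hcard, hspr, hdisj, hcov⟩, σ, hσ, hord, hmem, htr⟩ := h
  set n := Nat.card K ^ 2 + Nat.card K + 1 with hn
  have : NeZero n := ⟨by omega⟩
  have hfin : Pk.Finite := Set.finite_of_ncard_ne_zero (by rw [hcard]; omega)
  obtain ⟨S, hS⟩ : Pk.Nonempty := Set.nonempty_of_ncard_ne_zero (by rw [hcard]; omega)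
  let ρ : ZMod n → Equiv.Perm (ℙ K V) := fun u => σ ^ u.val
  have h0 : ρ 0 = 1 := by simp [ρ]
  have hcast : ∀ k : ℕ, ρ (k : ZMod n) = σ ^ k := by
    intro k
    simp only [ρ]
    rw [ZMod.val_natCast]
    have := pow_mod_orderOf σ k
    rwa [hord] at this
  have hadd : ∀ u v, ρ (u + v) = ρ u * ρ v := by
    intro u v
    have : u + v = ((u.val + v.val : ℕ) : ZMod n) := by
      push_cast
      rw [ZMod.natCast_zmod_val, ZMod.natCast_zmod_val]
    rw [this, hcast, pow_add]
  -- the orbit map is bijective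
  have hmem' : ∀ u : ZMod n, actSpread (ρ u) S ∈ Pk := by
    intro u
    have : ∀ k : ℕ, (actSpread σ)^[k] S ∈ Pk := by
      intro k
      induction k with
      | zero => exact hS
      | succ k ih => rw [Function.iterate_succ_apply']; exact hmem _ ih
    rw [← actSpread_iterate]
    exact this _
  let f : ZMod n → Pk := fun u => ⟨actSpread (ρ u) S, hmem' u⟩
  have hfs : Function.Surjective f := by
    rintro ⟨T, hT⟩
    obtain ⟨k, hk⟩ := htr S hS T hT
    refine ⟨(k : ZMod n), Subtype.ext ?_⟩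
    show actSpread (ρ (k : ZMod n)) S = T
    rw [hcast, ← actSpread_iterate, hk]
  have : Finite Pk := hfin
  have hfb : Function.Bijective f := by
    refine hfs.bijective_of_nat_card_le ?_
    rw [Nat.card_zmod, Nat.card_coe_set_eq, hcard]
  refine ⟨ρ, S, h0, hadd, fun u => hσ.pow _, hspr S hS, ?_⟩
  intro l hl
  obtain ⟨T, ⟨hT, hlT⟩, hTu⟩ := hcov l hl
  obtain ⟨v, hv⟩ := hfs ⟨T, hT⟩
  have hv' : actSpread (ρ v) S = T := congrArg Subtype.val hv
  have hneg : ∀ (u : ZMod n) (m : Set (ℙ K V)), ρ (-u) '' (ρ u '' m) = m := by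
    intro u m
    rw [Set.image_image]
    have : ∀ x, ρ (-u) (ρ u x) = x := by
      intro x
      rw [← Equiv.Perm.mul_apply, ← hadd, neg_add_cancel, h0]
      rfl
    simp [this]
  rw [← hv'] at hlT
  obtain ⟨m, hm, hml⟩ := hlT
  refine ⟨-v, ?_, ?_⟩
  · show ρ (-v) '' l ∈ S
    rw [← hml]
    show ρ (-v) '' (ρ v '' m) ∈ S
    rw [hneg]
    exact hm
  · intro u hu
    have h1 : l ∈ actSpread (ρ (-u)) S := ⟨ρ u '' l, hu, hneg u l⟩
    have h2 := hTu _ ⟨hmem' (-u), h1⟩
    have h3 : f (-u) = f v := Subtype.ext (by show actSpread (ρ (-u)) S = actSpread (ρ v) S; rw [h2, hv'])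
    rw [← hfb.1 h3, neg_neg]

section Fixed

variable {n : ℕ} {ρ : ZMod n → Equiv.Perm (ℙ K V)} {S : Set (Set (ℙ K V))}

theorem Cyc.fix_unique (h : Cyc ρ S) {u : ZMod n} (hu : u ≠ 0) {P Q : ℙ K V} (hP : ρ u P = P)
    (hQ : ρ u Q = Q) : P = Q := by
  by_contra hne
  apply hu
  refine h.free_line (isLine_lineOf hne) ?_
  rw [image_lineOf (h.coll u) hne, hP, hQ]

theorem Cyc.fix_plane_unique (h4 : finrank K V = 4) (h : Cyc ρ S) {u : ZMod n} (hu : u ≠ 0)
    {X Y : Set (ℙ K V)} (hX : IsPlane X) (hY : IsPlane Y) (hP : ρ u '' X = X)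
    (hQ : ρ u '' Y = Y) : X = Y := by
  by_contra hne
  apply hu
  refine h.free_line (isLine_inter h4 hX hY hne) ?_
  rw [Set.image_inter (ρ u).injective, hP, hQ]

theorem Cyc.exists_fix (h4 : finrank K V = 4) (hn : n = Nat.card K ^ 2 + Nat.card K + 1)
    (h : Cyc ρ S) : ∃ P, ∀ u, ρ u P = P := by
  refine exists_common_fix (k := Nat.card K) ?_ ρ h.zero h.add ?_ fun u hu P Q hP hQ =>
    h.fix_unique hu hP hQ
  · have := card_ge_two (K := K)
    rw [hn]
    nlinarith
  · rw [card_points h4, hn]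

/-- the action on planes -/
noncomputable def planePerm (h : Cyc ρ S) (u : ZMod n) :
    Equiv.Perm {X : Set (ℙ K V) // IsPlane X} where
  toFun X := ⟨ρ u '' X, image_plane (h.coll u) X.2⟩
  invFun X := ⟨ρ (-u) '' X, image_plane (h.coll (-u)) X.2⟩
  left_inv X := Subtype.ext (h.image_neg u X)
  right_inv X := Subtype.ext (h.neg_image u X)

theorem Cyc.exists_fix_plane (h4 : finrank K V = 4)
    (hn : n = Nat.card K ^ 2 + Nat.card K + 1) (h : Cyc ρ S) :
    ∃ X : Set (ℙ K V), IsPlane X ∧ ∀ u, ρ u '' X = X := by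
  obtain ⟨X, hX⟩ := exists_common_fix (α := {X : Set (ℙ K V) // IsPlane X}) (k := Nat.card K)
    (n := n) (by
      have := card_ge_two (K := K)
      rw [hn]
      nlinarith) (planePerm h)
    (by
      ext X : 1
      apply Subtype.ext
      show ρ 0 '' X = X
      rw [h.zero]
      simp)
    (fun u v => by
      ext X : 1
      apply Subtype.ext
      exact h.image_add u v X)
    (by rw [card_planes h4, hn])
    (fun u hu X Y hX hY => Subtype.ext
      (h.fix_plane_unique h4 hu X.2 Y.2 (congrArg Subtype.val hX) (congrArg Subtype.val hY)))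
  exact ⟨X, X.2, fun u => congrArg Subtype.val (hX u)⟩

/-- `q = 1` modulo three is impossible. -/
theorem Cyc.not_three_dvd (h4 : finrank K V = 4) (hn : n = Nat.card K ^ 2 + Nat.card K + 1)
    (h : Cyc ρ S) : ¬ 3 ∣ n := by
  rintro ⟨m, hm⟩
  have hq := card_ge_two (K := K)
  have hn0 : 0 < n := by omega
  have : NeZero n := ⟨by omega⟩
  have hm0 : 0 < m := by omega
  set t : ZMod n := ((m : ℕ) : ZMod n) with ht
  have ht0 : t ≠ 0 := by
    intro h'
    rw [ht, ZMod.natCast_eq_zero_iff] at h'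
    exact absurd (Nat.le_of_dvd hm0 h') (by omega)
  have ht3 : t + t + t = 0 := by
    have : ((3 * m : ℕ) : ZMod n) = 0 := by rw [← hm]; exact ZMod.natCast_self n
    push_cast at this
    rw [← ht] at this
    linear_combination this
  have hρ3 : ∀ P, ρ t (ρ t (ρ t P)) = P := by
    intro P
    rw [← h.add_apply, ← h.add_apply, ht3, h.zero]
    rfl
  -- every point which is not fixed lies on a fixed plane
  have key : ∀ P, ρ t P ≠ P → ∃ X, IsPlane X ∧ ρ t '' X = X ∧ P ∈ X := by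
    intro P hP
    have h1 : ρ t (ρ t P) ≠ ρ t P := fun h' => hP ((ρ t).injective h')
    have h2 : ρ t (ρ t P) ∉ lineOf P (ρ t P) := by
      intro h3
      apply ht0
      refine h.free_line (isLine_lineOf (Ne.symm hP)) ?_
      rw [image_lineOf (h.coll t) (Ne.symm hP)]
      exact (eq_lineOf (isLine_lineOf (Ne.symm hP)) (right_mem_lineOf _ _) h3 h1.symm).symm
    obtain ⟨X, hX, hP1, hP2, hP3, hXu⟩ := exists_plane (Ne.symm hP) h2
    refine ⟨X, hX, ?_, hP1⟩
    refine hXu _ (image_plane (h.coll t) hX) ?_ ?_ ?_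
    · exact ⟨_, hP3, hρ3 P⟩
    · exact ⟨_, hP1, rfl⟩
    · exact ⟨_, hP2, rfl⟩
  -- the fixed plane contains all points but one
  obtain ⟨P0, hP0⟩ := h.exists_fix h4 hn
  obtain ⟨X, hX, hXf⟩ := h.exists_fix_plane h4 hn
  have hall : (Set.univ : Set (ℙ K V)) ⊆ insert P0 X := by
    intro P _
    by_cases hP : ρ t P = P
    · left
      exact h.fix_unique ht0 hP (hP0 t)
    · right
      obtain ⟨Y, hY, hYf, hPY⟩ := key P hP
      rw [h.fix_plane_unique h4 ht0 hX hY (hXf t) hYf]
      exact hPY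
  have h1 := Set.ncard_le_ncard hall (Set.toFinite _)
  have h2 := Set.ncard_insert_le P0 X
  rw [Set.ncard_univ, card_points h4] at h1
  rw [hX.ncard] at h2
  nlinarith

end Fixed

end Pool.Agent.Lib.MP_53cbe0_co
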