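import Pool.Agent.Lib.MP_53cbe0_co.NonExist

/-!
# Cyclic packings do not exist for `q` divisible by three
-/

set_option autoImplicit false
set_option linter.unusedSectionVars false

namespace Pool.Agent.Lib.MP_53cbe0_co

open scoped LinearAlgebra.Projectivization
open Module

universe u v

variable {K : Type u} {V : Type v} [Field K] [AddCommGroup V] [Module K V]
variable [Finite K] [FiniteDimensional K V]

/-- A frame for a cyclic action: the fixed point, the fixed plane, a point of this plane and the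
line of the spread in it. -/
structure Frame {n : ℕ} (ρ : ZMod n → Equiv.Perm (ℙ K V)) (S : Set (Set (ℙ K V)))
    (P0 A : ℙ K V) (X m : Set (ℙ K V)) : Prop where
  fixP : ∀ u, ρ u P0 = P0
  plane : IsPlane X
  fixX : ∀ u, ρ u '' X = X
  notMem : P0 ∉ X
  mem : A ∈ X
  m_mem : m ∈ S
  m_sub : m ⊆ X

variable {n : ℕ} {ρ : ZMod n → Equiv.Perm (ℙ K V)} {S : Set (Set (ℙ K V))}

theorem Cyc.eq_of_mem (h : Cyc ρ S) {s t : Set (ℙ K V)} (hs : s ∈ S) (ht : t ∈ S) {P : ℙ K V}
    (hPs : P ∈ s) (hPt : P ∈ t) : s = t := by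
  obtain ⟨r, _, hr⟩ := h.spread.2.2 P
  rw [hr s ⟨hs, hPs⟩, hr t ⟨ht, hPt⟩]

theorem exists_frame (h4 : finrank K V = 4) (hn : n = Nat.card K ^ 2 + Nat.card K + 1)
    (h : Cyc ρ S) : ∃ P0 A X m, Frame ρ S P0 A X m := by
  classical
  have hq := card_ge_two (K := K)
  have : NeZero n := ⟨by omega⟩
  obtain ⟨P0, hP0⟩ := h.exists_fix h4 hn
  obtain ⟨X, hX, hXf⟩ := h.exists_fix_plane h4 hn
  have hXc := hX.ncard
  rw [← hn] at hXc
  have hXf' : ∀ u, ∀ P ∈ X, ρ u P ∈ X := fun u P hP => by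
    rw [← hXf u]
    exact ⟨P, hP, rfl⟩
  -- `P0` is not in `X`
  have hP0X : P0 ∉ X := by
    intro hmem
    have h1 : ∃ A ∈ X, A ≠ P0 := by
      by_contra hcon
      push Not at hcon
      have h2 : X ⊆ {P0} := fun A hA => hcon A hA
      have h3 := Set.ncard_le_ncard h2 (Set.toFinite _)
      rw [Set.ncard_singleton, hXc] at h3
      omega
    obtain ⟨A, hA, hAP⟩ := h1
    have h2 : Function.Injective fun u : ZMod n => ρ u A := by
      intro u v huv
      by_contra hne
      have h3 : ρ (v - u) A = A := by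
        have : ρ (-u) (ρ u A) = ρ (-u) (ρ v A) := by rw [show ρ u A = ρ v A from huv]
        rw [h.neg_apply, ← h.add_apply] at this
        rw [sub_eq_neg_add]
        exact this.symm
      exact hAP (h.fix_unique (sub_ne_zero.2 (Ne.symm hne)) h3 (hP0 _))
    have h3 : Set.range (fun u : ZMod n => ρ u A) ⊆ X \ {P0} := by
      rintro _ ⟨u, rfl⟩
      refine ⟨hXf' u A hA, ?_⟩
      intro h4
      rw [Set.mem_singleton_iff] at h4
      apply hAP
      exact (ρ u).injective (h4.trans (hP0 u).symm)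
    have h4 := Set.ncard_le_ncard h3 (Set.toFinite _)
    rw [Set.ncard_range_of_injective h2, Nat.card_zmod, Set.ncard_sdiff_singleton_of_mem hmem, hXc]
      at h4
    omega
  obtain ⟨A, hA⟩ : X.Nonempty := Set.nonempty_of_ncard_ne_zero (by rw [hXc]; omega)
  -- the spread line in `X`
  have hm : ∃ m ∈ S, m ⊆ X := by
    by_contra hcon
    push Not at hcon
    -- every spread line meets `X` in exactly one point
    have h1 : ∀ s ∈ S, ∃! P, P ∈ s ∧ P ∈ X := fun s hs =>
      existsUnique_meet h4 hX (h.spread.2.1 s hs) (hcon s hs)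
    have h2 : X.ncard = S.ncard := by
      refine Set.ncard_congr (fun P _ => (h.spread.2.2 P).choose) ?_ ?_ ?_
      · intro P _
        exact (h.spread.2.2 P).choose_spec.1.1
      · intro P Q hP hQ hPQ
        obtain ⟨R, _, hR⟩ := h1 _ (h.spread.2.2 P).choose_spec.1.1
        have e1 := hR P ⟨(h.spread.2.2 P).choose_spec.1.2, hP⟩
        have e2 := hR Q ⟨by
          have := (h.spread.2.2 Q).choose_spec.1.2
          rw [← hPQ] at this
          exact this, hQ⟩
        rw [e1, e2]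
      · intro s hs
        obtain ⟨P, ⟨hPs, hPX⟩, _⟩ := h1 s hs
        exact ⟨P, hPX, ((h.spread.2.2 P).choose_spec.2 s ⟨hs, hPs⟩).symm⟩
    rw [hXc, h.spread.1] at h2
    omega
  obtain ⟨m, hmS, hmX⟩ := hm
  exact ⟨P0, A, X, m, hP0, hX, hXf, hP0X, hA, hmS, hmX⟩

section Main

variable {P0 A : ℙ K V} {X m : Set (ℙ K V)}

theorem Frame.apply_mem (F : Frame ρ S P0 A X m) {u : ZMod n} {P : ℙ K V} (hP : P ∈ X) :
    ρ u P ∈ X := by
  rw [← F.fixX u]
  exact ⟨P, hP, rfl⟩

theorem Frame.apply_notMem (h : Cyc ρ S) (F : Frame ρ S P0 A X m) {u : ZMod n} {P : ℙ K V}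
    (hP : P ∉ X) : ρ u P ∉ X := by
  intro h1
  apply hP
  have := F.apply_mem (u := -u) h1
  rwa [h.neg_apply] at this

theorem Frame.inj (h : Cyc ρ S) (F : Frame ρ S P0 A X m) {u v : ZMod n}
    (huv : ρ u A = ρ v A) : u = v := by
  by_contra hne
  have h3 : ρ (v - u) A = A := by
    have : ρ (-u) (ρ u A) = ρ (-u) (ρ v A) := by rw [huv]
    rw [h.neg_apply, ← h.add_apply] at this
    rw [sub_eq_neg_add]
    exact this.symm
  have := h.fix_unique (sub_ne_zero.2 (Ne.symm hne)) h3 (F.fixP _)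
  exact F.notMem (this ▸ F.mem)

theorem Frame.surj (hn : n = Nat.card K ^ 2 + Nat.card K + 1) (h : Cyc ρ S)
    (F : Frame ρ S P0 A X m) {B : ℙ K V} (hB : B ∈ X) : ∃ u, ρ u A = B := by
  have : NeZero n := ⟨by omega⟩
  have h1 : Function.Injective fun u : ZMod n => ρ u A := fun u v huv => F.inj h huv
  have h2 : Set.range (fun u : ZMod n => ρ u A) = X := by
    refine Set.eq_of_subset_of_ncard_le ?_ ?_ (Set.toFinite _)
    · rintro _ ⟨u, rfl⟩
      exact F.apply_mem F.mem
    · rw [Set.ncard_range_of_injective h1, Nat.card_zmod, F.plane.ncard, hn]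
  rw [← h2] at hB
  exact hB

open Classical in
/-- The difference set. -/
noncomputable def dset [NeZero n] (ρ : ZMod n → Equiv.Perm (ℙ K V)) (A : ℙ K V)
    (m : Set (ℙ K V)) : Finset (ZMod n) := Finset.univ.filter fun u => ρ u A ∈ m

theorem mem_dset [NeZero n] {u : ZMod n} : u ∈ dset ρ A m ↔ ρ u A ∈ m := by
  simp [dset]

theorem Frame.isPlanar [NeZero n] (hn : n = Nat.card K ^ 2 + Nat.card K + 1) (h : Cyc ρ S)
    (F : Frame ρ S P0 A X m) : IsPlanar (Nat.card K) (dset ρ A m) := by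
  have hml : IsLine K V m := h.spread.2.1 m F.m_mem
  constructor
  · rw [← hml.ncard, ← Set.ncard_coe_finset]
    refine Set.ncard_congr (fun u _ => ρ u A) ?_ ?_ ?_
    · intro u hu
      exact mem_dset.1 hu
    · intro u v _ _ huv
      exact F.inj h huv
    · intro B hB
      obtain ⟨u, hu⟩ := F.surj hn h (F.m_sub hB)
      exact ⟨u, mem_dset.2 (hu ▸ hB), hu⟩
  · intro g hg
    -- the lines `m` and `ρ (-g) m`
    have hml' : IsLine K V (ρ (-g) '' m) := h.coll _ _ hml
    have hne : ρ (-g) '' m ≠ m := by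
      intro h1
      exact hg (neg_eq_zero.1 (h.free_line hml h1))
    have hsub : ρ (-g) '' m ⊆ X := by
      rw [← F.fixX (-g)]
      exact Set.image_mono F.m_sub
    obtain ⟨B, hB1, hB2⟩ := exists_meet_lines F.plane hml hml' F.m_sub hsub
    obtain ⟨y, hy⟩ := F.surj hn h (F.m_sub hB1)
    have hgB : ∀ C, C ∈ ρ (-g) '' m ↔ ρ g C ∈ m := by
      intro C
      constructor
      · rintro ⟨D, hD, rfl⟩
        rwa [h.apply_neg]
      · intro hC
        exact ⟨ρ g C, hC, h.neg_apply g C⟩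
    refine ⟨(g + y, y), ⟨⟨?_, ?_⟩, ?_⟩, ?_⟩
    · rw [mem_dset, h.add_apply, hy]
      exact (hgB B).1 hB2
    · rw [mem_dset, hy]
      exact hB1
    · simp
    · rintro ⟨x1, x2⟩ ⟨⟨hx1, hx2⟩, hx⟩
      rw [mem_dset] at hx1 hx2
      simp only at hx1 hx2 hx
      have hx1' : x1 = g + x2 := by rw [← hx]; ring
      rw [hx1', h.add_apply] at hx1
      have h1 : ρ x2 A = B := by
        by_contra hne'
        exact hne (line_eq hml' hml ((hgB _).2 hx1) hB2 hx2 hB1 hne')
      have h2 : x2 = y := F.inj h (h1.trans hy.symm)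
      rw [hx1', h2]

open Classical in
/-- The element carrying the line `A x` to a line of the spread. -/
noncomputable def gFun (h : Cyc ρ S) (A x : ℙ K V) : ZMod n :=
  if hx : A ≠ x then (h.line _ (isLine_lineOf hx)).choose else 0

theorem gFun_spec (h : Cyc ρ S) {A x : ℙ K V} (hx : A ≠ x) : ρ (gFun h A x) '' lineOf A x ∈ S := by
  unfold gFun
  rw [dif_pos hx]
  exact (h.line _ (isLine_lineOf hx)).choose_spec.1

theorem gFun_unique (h : Cyc ρ S) {A x : ℙ K V} (hx : A ≠ x) {u : ZMod n}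
    (hu : ρ u '' lineOf A x ∈ S) : gFun h A x = u := by
  unfold gFun
  rw [dif_pos hx]
  exact ((h.line _ (isLine_lineOf hx)).choose_spec.2 u hu).symm

/-- position of a point: the unique `u` with `ρ u A` on the line through `P0`. -/
theorem exists_pos (h4 : finrank K V = 4) (hn : n = Nat.card K ^ 2 + Nat.card K + 1)
    (h : Cyc ρ S) (F : Frame ρ S P0 A X m) {x : ℙ K V} (hx : P0 ≠ x) :
    ∃! u, ρ u A ∈ lineOf P0 x := by
  have h1 : ¬ lineOf P0 x ⊆ X := fun h2 => F.notMem (h2 (left_mem_lineOf P0 x))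
  obtain ⟨B, ⟨hB1, hB2⟩, hBu⟩ := existsUnique_meet h4 F.plane (isLine_lineOf hx) h1
  obtain ⟨u, hu⟩ := F.surj hn h hB2
  refine ⟨u, by show ρ u A ∈ _; rw [hu]; exact hB1, fun v hv => ?_⟩
  exact F.inj h ((hBu _ ⟨hv, F.apply_mem F.mem⟩).trans hu.symm)

open Classical in
/-- position of a point -/
noncomputable def posFun (ρ : ZMod n → Equiv.Perm (ℙ K V)) (P0 A x : ℙ K V) : ZMod n :=
  if hx : ∃ u, ρ u A ∈ lineOf P0 x then hx.choose else 0

theorem posFun_eq (h4 : finrank K V = 4) (hn : n = Nat.card K ^ 2 + Nat.card K + 1)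
    (h : Cyc ρ S) (F : Frame ρ S P0 A X m) {x : ℙ K V} (hx : P0 ≠ x) {u : ZMod n}
    (hu : ρ u A ∈ lineOf P0 x) : posFun ρ P0 A x = u := by
  have hex : ∃ u, ρ u A ∈ lineOf P0 x := ⟨u, hu⟩
  unfold posFun
  rw [dif_pos hex]
  exact (exists_pos h4 hn h F hx).unique hex.choose_spec hu

theorem posFun_add (h4 : finrank K V = 4) (hn : n = Nat.card K ^ 2 + Nat.card K + 1)
    (h : Cyc ρ S) (F : Frame ρ S P0 A X m) {x : ℙ K V} (hx : P0 ≠ x) (v : ZMod n) :
    posFun ρ P0 A (ρ v x) = v + posFun ρ P0 A x := by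
  obtain ⟨u, hu, _⟩ := exists_pos h4 hn h F hx
  rw [posFun_eq h4 hn h F hx hu]
  have hx' : P0 ≠ ρ v x := by
    intro h1
    apply hx
    apply (ρ v).injective
    rw [F.fixP v, ← h1]
  refine posFun_eq h4 hn h F hx' ?_
  rw [h.add_apply]
  have := image_lineOf (h.coll v) hx
  rw [F.fixP v] at this
  rw [← this]
  exact ⟨_, hu, rfl⟩

/-- Points of `X` and outside are different. -/
theorem Frame.ne (F : Frame ρ S P0 A X m) {x : ℙ K V} (hx : x ∉ X) : A ≠ x := by
  rintro rfl
  exact hx F.mem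

/-- The size of the fibres of `gFun`. -/
theorem card_fibre (h4 : finrank K V = 4)
    (h : Cyc ρ S) (F : Frame ρ S P0 A X m) (u : ZMod n) (hu : ρ u A ∉ m) :
    {x : ℙ K V | x ∉ X ∧ gFun h A x = u}.ncard = Nat.card K := by
  obtain ⟨s, ⟨hsS, hus⟩, hsu⟩ := h.spread.2.2 (ρ u A)
  have hsl : IsLine K V s := h.spread.2.1 s hsS
  have hml : IsLine K V m := h.spread.2.1 m F.m_mem
  have hsX : ¬ s ⊆ X := by
    intro h1
    obtain ⟨B, hB1, hB2⟩ := exists_meet_lines F.plane hsl hml h1 F.m_sub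
    have := h.eq_of_mem hsS F.m_mem hB1 hB2
    exact hu (this ▸ hus)
  obtain ⟨B, ⟨hB1, hB2⟩, hBu⟩ := existsUnique_meet h4 F.plane hsl hsX
  have hBA : ρ u A = B := hBu _ ⟨hus, F.apply_mem F.mem⟩
  have h1 : {x : ℙ K V | x ∉ X ∧ gFun h A x = u} = ρ (-u) '' (s \ {ρ u A}) := by
    ext x
    simp only [Set.mem_ofPred_eq, Set.mem_image, Set.mem_sdiff, Set.mem_singleton_iff]
    constructor
    · rintro ⟨hx, hg⟩
      have h2 := gFun_spec h (F.ne hx)
      rw [hg] at h2
      have h3 : ρ u '' lineOf A x = s := h.eq_of_mem h2 hsS ⟨A, left_mem_lineOf A x, rfl⟩ hus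
      refine ⟨ρ u x, ⟨?_, ?_⟩, h.neg_apply u x⟩
      · rw [← h3]
        exact ⟨x, right_mem_lineOf A x, rfl⟩
      · intro h5
        exact F.ne hx ((ρ u).injective h5).symm
    · rintro ⟨y, ⟨hys, hyA⟩, rfl⟩
      have hyX : y ∉ X := by
        intro h2
        exact hyA ((hBu y ⟨hys, h2⟩).trans hBA.symm)
      have hyX' : ρ (-u) y ∉ X := F.apply_notMem h hyX
      refine ⟨hyX', gFun_unique h (F.ne hyX') ?_⟩
      have h2 : ρ u '' lineOf A (ρ (-u) y) = s := by
        rw [image_lineOf (h.coll u) (F.ne hyX'), h.apply_neg]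
        exact (eq_lineOf hsl hus hys (Ne.symm hyA)).symm
      rw [h2]
      exact hsS
  rw [h1, Set.ncard_image_of_injective _ (ρ (-u)).injective,
    Set.ncard_sdiff_singleton_of_mem hus, hsl.ncard]
  rfl

theorem gFun_notMem (h : Cyc ρ S) (F : Frame ρ S P0 A X m) {x : ℙ K V} (hx : x ∉ X) :
    ρ (gFun h A x) A ∉ m := by
  intro h1
  have h2 := gFun_spec h (F.ne hx)
  have h3 : ρ (gFun h A x) '' lineOf A x = m :=
    h.eq_of_mem h2 F.m_mem ⟨A, left_mem_lineOf A x, rfl⟩ h1
  have h4 : ρ (gFun h A x) x ∈ X := by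
    apply F.m_sub
    rw [← h3]
    exact ⟨x, right_mem_lineOf A x, rfl⟩
  exact F.apply_notMem h hx h4

/-- The map `x ↦ g(x) x` is onto. -/
theorem exists_preimage (h4 : finrank K V = 4) (hn : n = Nat.card K ^ 2 + Nat.card K + 1)
    (h : Cyc ρ S) (F : Frame ρ S P0 A X m) {z : ℙ K V} (hz : z ∉ X) :
    ∃ x, x ∉ X ∧ ρ (gFun h A x) x = z := by
  obtain ⟨s, ⟨hsS, hzs⟩, _⟩ := h.spread.2.2 z
  have hsl : IsLine K V s := h.spread.2.1 s hsS
  have hsX : ¬ s ⊆ X := fun h1 => hz (h1 hzs)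
  obtain ⟨B, ⟨hB1, hB2⟩, hBu⟩ := existsUnique_meet h4 F.plane hsl hsX
  obtain ⟨u, hu⟩ := F.surj hn h hB2
  have hxX : ρ (-u) z ∉ X := F.apply_notMem h hz
  have hzB : B ≠ z := by
    rintro rfl
    exact hz hB2
  refine ⟨ρ (-u) z, hxX, ?_⟩
  have h2 : ρ u '' lineOf A (ρ (-u) z) = s := by
    rw [image_lineOf (h.coll u) (F.ne hxX), h.apply_neg, hu]
    exact (eq_lineOf hsl hB1 hzs hzB).symm
  rw [gFun_unique h (F.ne hxX) (h2 ▸ hsS), h.apply_neg]

theorem sum_zmod_eq_zero (k : ℕ) [NeZero (2 * k + 1)] : ∑ u : ZMod (2 * k + 1), u = 0 := by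
  have h1 : ∑ u : ZMod (2 * k + 1), u = ∑ u : ZMod (2 * k + 1), -u :=
    (Equiv.sum_comp (Equiv.neg (ZMod (2 * k + 1))) fun u => u).symm
  rw [Finset.sum_neg_distrib] at h1
  have h2 : (2 : ZMod (2 * k + 1)) * ∑ u : ZMod (2 * k + 1), u = 0 := by
    linear_combination h1
  have h3 : (((2 * k + 1 : ℕ)) : ZMod (2 * k + 1)) = 0 := ZMod.natCast_self _
  push_cast at h3
  linear_combination (∑ u : ZMod (2 * k + 1), u) * h3 - (k : ZMod (2 * k + 1)) * h2

theorem sum_zmod [NeZero n] (hn : n = Nat.card K ^ 2 + Nat.card K + 1) :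
    ∑ u : ZMod n, u = 0 := by
  have : ∃ k, n = 2 * k + 1 := by
    have h1 : Even (Nat.card K * (Nat.card K + 1)) := Nat.even_mul_succ_self _
    obtain ⟨k, hk⟩ := h1
    exact ⟨k, by rw [hn]; nlinarith⟩
  obtain ⟨k, rfl⟩ := this
  exact sum_zmod_eq_zero k

/-- `q = 0` modulo three is impossible. -/
theorem Cyc.not_three_dvd_card (h4 : finrank K V = 4)
    (hn : n = Nat.card K ^ 2 + Nat.card K + 1) (h : Cyc ρ S) : ¬ 3 ∣ Nat.card K := by
  classical
  intro h3
  have : NeZero n := ⟨by omega⟩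
  have : Fintype (ℙ K V) := Fintype.ofFinite _
  have : Fintype K := Fintype.ofFinite K
  obtain ⟨P0, A, X, m, F⟩ := exists_frame h4 hn h
  obtain ⟨p, e, hp, he, hpe⟩ := (FiniteField.isPrimePow_card K)
  have hplan := F.isPlanar hn h
  have hmem := mem_of_three_dvd hp.nat_prime
    (by rw [Nat.card_eq_fintype_card]; exact hpe.symm) he.ne' hn hplan h3
  -- the complement of the plane and of `P0`
  set Xc : Finset (ℙ K V) := Finset.univ.filter fun x => x ∉ X with hXc
  have hP0 : P0 ∈ Xc := by simp [hXc, F.notMem]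
  have hsum1 : ∑ x ∈ Xc.erase P0, gFun h A x = 0 := by
    have e1 : ∑ x ∈ Xc.erase P0, posFun ρ P0 A (ρ (gFun h A x) x) =
        ∑ x ∈ Xc.erase P0, posFun ρ P0 A x := by
      have hmaps : ∀ x ∈ Xc.erase P0, ρ (gFun h A x) x ∈ Xc.erase P0 := by
        intro x hx
        rw [Finset.mem_erase] at hx ⊢
        refine ⟨?_, ?_⟩
        · intro h1
          apply hx.1
          apply (ρ (gFun h A x)).injective
          rw [h1, F.fixP]
        · simp only [hXc, Finset.mem_filter, Finset.mem_univ, true_and] at hx ⊢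
          exact F.apply_notMem h hx.2
      have hsurj : (Xc.erase P0).image (fun x => ρ (gFun h A x) x) = Xc.erase P0 := by
        apply Finset.Subset.antisymm
        · intro y hy
          rw [Finset.mem_image] at hy
          obtain ⟨x, hx, rfl⟩ := hy
          exact hmaps x hx
        · intro z hz
          rw [Finset.mem_erase] at hz
          have hz2 : z ∉ X := by simpa [hXc] using hz.2
          obtain ⟨x, hx, hxz⟩ := exists_preimage h4 hn h F hz2
          rw [Finset.mem_image]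
          refine ⟨x, ?_, hxz⟩
          rw [Finset.mem_erase]
          refine ⟨?_, by simp [hXc, hx]⟩
          rintro rfl
          rw [F.fixP] at hxz
          exact hz.1 hxz.symm
      have hinj : Set.InjOn (fun x => ρ (gFun h A x) x) (Xc.erase P0 : Finset (ℙ K V)) := by
        rw [← Finset.card_image_iff, hsurj]
      conv_rhs => rw [← hsurj]
      rw [Finset.sum_image hinj]
    have e2 : ∀ x ∈ Xc.erase P0, posFun ρ P0 A (ρ (gFun h A x) x) =
        gFun h A x + posFun ρ P0 A x := by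
      intro x hx
      rw [Finset.mem_erase] at hx
      exact posFun_add h4 hn h F (Ne.symm hx.1) _
    rw [Finset.sum_congr rfl e2, Finset.sum_add_distrib] at e1
    simpa using e1
  have hsum2 : ∑ x ∈ Xc, gFun h A x = -(Nat.card K : ZMod n) * ∑ d ∈ dset ρ A m, d := by
    have e1 : ∑ x ∈ Xc, gFun h A x =
        ∑ u : ZMod n, ∑ x ∈ Xc.filter (fun x => gFun h A x = u), gFun h A x :=
      (Finset.sum_fiberwise _ _ _).symm
    have e2 : ∀ u : ZMod n, ∑ x ∈ Xc.filter (fun x => gFun h A x = u), gFun h A x =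
        if u ∈ dset ρ A m then 0 else (Nat.card K : ZMod n) * u := by
      intro u
      rw [Finset.sum_congr rfl (g := fun _ => u) fun x hx => (Finset.mem_filter.1 hx).2,
        Finset.sum_const, nsmul_eq_mul]
      split_ifs with hu
      · have : Xc.filter (fun x => gFun h A x = u) = ∅ := by
          rw [Finset.filter_eq_empty_iff]
          intro x hx hg
          have hx' : x ∉ X := by simpa [hXc] using hx
          apply gFun_notMem h F hx'
          rw [hg]
          exact mem_dset.1 hu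
        rw [this]
        simp
      · have h5 := card_fibre h4 h F u (fun h6 => hu (mem_dset.2 h6))
        have h6 : (Xc.filter (fun x => gFun h A x = u)).card = Nat.card K := by
          rw [← h5, ← Set.ncard_coe_finset]
          congr 1
          ext x
          simp [hXc]
        rw [h6]
    rw [e1, Finset.sum_congr rfl fun u _ => e2 u]
    have e3 : ∀ u : ZMod n, (if u ∈ dset ρ A m then 0 else (Nat.card K : ZMod n) * u) =
        (Nat.card K : ZMod n) * u - if u ∈ dset ρ A m then (Nat.card K : ZMod n) * u else 0 := by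
      intro u
      split_ifs <;> ring
    rw [Finset.sum_congr rfl fun u _ => e3 u, Finset.sum_sub_distrib, ← Finset.mul_sum,
      sum_zmod hn, Finset.sum_ite_mem, Finset.univ_inter, ← Finset.mul_sum]
    ring
  have hsum3 : gFun h A P0 = -(Nat.card K : ZMod n) * ∑ d ∈ dset ρ A m, d := by
    rw [← hsum2, ← Finset.add_sum_erase _ _ hP0, hsum1, add_zero]
  rw [← hsum3, mem_dset] at hmem
  exact gFun_notMem h F F.notMem hmem

end Main

/-- A cyclic packing of `PG(3,q)` forces `q = 2` modulo three. -/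
theorem card_mod_three (h4 : finrank K V = 4) {Pk : Set (Set (Set (ℙ K V)))}
    (h : IsCyclicPacking K V Pk) : Nat.card K % 3 = 2 := by
  obtain ⟨ρ, S, hc⟩ := exists_cyc h
  have h1 := hc.not_three_dvd h4 rfl
  have h2 := hc.not_three_dvd_card h4 rfl
  by_contra h3
  have h5 : Nat.card K % 3 = 0 ∨ Nat.card K % 3 = 1 := by omega
  rcases h5 with h5 | h5
  · exact h2 (Nat.dvd_of_mod_eq_zero h5)
  · apply h1
    apply Nat.dvd_of_mod_eq_zero
    rw [Nat.add_mod, Nat.add_mod (Nat.card K ^ 2), Nat.pow_mod, h5]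

end Pool.Agent.Lib.MP_53cbe0_co
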